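import Pool.Agent.Q260.DJ.Bk

set_option autoImplicit false
set_option linter.all false

/-!
Project BD (helper260), job JC: Cauchy's estimate, class `Cl`.
-/

namespace Pool.Agent.Q65.BD.JC

open Complex Filter Topology Metric Set
open Pool.Agent.H24R2.JP (HH XX Om)
open Pool.Agent.Q260.DJ

/-- Gronwall's lemma along a segment. -/
theorem gron {q : ℂ → ℂ} {a b : ℂ} {C : ℝ}
    (hd : ∀ t ∈ Icc (0 : ℝ) 1, DifferentiableAt ℂ q (a + t * (b - a)))
    (hb : ∀ t ∈ Icc (0 : ℝ) 1, ‖deriv q (a + t * (b - a))‖ ≤ C * ‖q (a + t * (b - a))‖) :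
    ‖q b‖ ≤ Real.exp (C * ‖b - a‖) * ‖q a‖ := by
  have hder : ∀ t ∈ Icc (0 : ℝ) 1, HasDerivAt (fun t : ℝ => q (a + t * (b - a)))
      (deriv q (a + t * (b - a)) * (b - a)) t := by
    intro t ht
    have e2 : HasDerivAt q (deriv q (a + t * (b - a))) (a + t * (b - a)) := (hd t ht).hasDerivAt
    have e3 : HasDerivAt (fun u : ℝ => a + (u : ℂ) * (b - a)) (b - a) t := by
      have := ((Complex.ofRealCLM.hasDerivAt (x := t)).mul_const (b - a)).const_add a
      simpa using this
    have e4 := HasDerivAt.scomp_of_eq t e2 e3 rfl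
    rw [smul_eq_mul, mul_comm] at e4
    exact e4
  have h1 := norm_le_gronwallBound_of_norm_deriv_right_le
    (f := fun t : ℝ => q (a + t * (b - a))) (f' := fun t : ℝ => deriv q (a + t * (b - a)) * (b - a))
    (δ := ‖q a‖) (K := C * ‖b - a‖) (ε := 0) (a := 0) (b := 1)
    (fun t ht => (hder t ht).continuousAt.continuousWithinAt)
    (fun t ht => (hder t ⟨ht.1, ht.2.le⟩).hasDerivWithinAt) (by simp)
    (fun t ht => by
      rw [norm_mul, add_zero]
      have := mul_le_mul_of_nonneg_right (hb t ⟨ht.1, ht.2.le⟩) (norm_nonneg (b - a))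
      refine this.trans (le_of_eq ?_)
      ring) 1 (by norm_num)
  rw [gronwallBound_ε0] at h1
  have e : a + ((1 : ℝ) : ℂ) * (b - a) = b := by push_cast; ring
  simp only [e] at h1
  rw [sub_zero, mul_one, mul_comm] at h1
  exact h1

/-- The factor `1` or `2 z`. -/
noncomputable def az (b : Bool) (z : ℂ) : ℂ := if b then 2 * z else 1

theorem deriv_eq (b : Bool) (F : ℂ → ℂ) {z : ℂ} (hz : z ≠ 0) :
    deriv F z = az b z * Op b F z := by
  unfold az Op
  cases b
  · simp
  · simp only [if_true]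
    field_simp

theorem az_pos (b : Bool) {z : ℂ} (hz : z ≠ 0) : 0 < ‖az b z‖ := by
  rw [norm_pos_iff]
  unfold az
  cases b
  · simp
  · simp [hz]

theorem az_cmp (b : Bool) {z w : ℂ} (h : ‖z‖ ≤ 2 * ‖w‖) : ‖az b z‖ ≤ 2 * ‖az b w‖ := by
  unfold az
  cases b
  · simp
  · simp only [if_true]
    rw [norm_mul, norm_mul, Complex.norm_ofNat]
    linarith

/-- `C ≤ exp (ε log T)` for large `T`. -/
theorem const_exp (C ε : ℝ) (hε : 0 < ε) : ∃ T6 : ℝ, 3 ≤ T6 ∧ ∀ T : ℝ, T6 ≤ T →
    C ≤ Real.exp (ε * Real.log T) := by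
  obtain ⟨M, hM⟩ : ∃ M : ℝ, M = |C| / ε := ⟨_, rfl⟩
  refine ⟨3 + Real.exp M, by linarith [Real.exp_pos M], fun T hT => ?_⟩
  have hT0 : 0 < T := by linarith [Real.exp_pos M]
  have hL2 : M ≤ Real.log T := by
    rw [Real.le_log_iff_exp_le hT0]
    linarith
  rw [hM, div_le_iff₀ hε] at hL2
  have h1 := Real.add_one_le_exp (ε * Real.log T)
  linarith [le_abs_self C]

/-- The quotient `G / HH`. -/
theorem quot {G : ℂ → ℂ} {w : ℂ} {C : ℝ} (hG : AnalyticAt ℂ G w) (hH : AnalyticAt ℂ HH w)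
    (hH0 : HH w ≠ 0) (hG0 : G w ≠ 0) (hb : ‖logDeriv G w - logDeriv HH w‖ ≤ C) :
    DifferentiableAt ℂ (fun w => G w / HH w) w ∧
      ‖deriv (fun w => G w / HH w) w‖ ≤ C * ‖G w / HH w‖ := by
  have hd : DifferentiableAt ℂ (fun w => G w / HH w) w :=
    hG.differentiableAt.div hH.differentiableAt hH0
  refine ⟨hd, ?_⟩
  have e1 : deriv (fun w => G w / HH w) w = (logDeriv G w - logDeriv HH w) * (G w / HH w) := by
    have := (hG.differentiableAt.hasDerivAt.div hH.differentiableAt.hasDerivAt hH0).deriv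
    have e2 : deriv (fun w => G w / HH w) w = (deriv G w * HH w - G w * deriv HH w) / HH w ^ 2 := this
    rw [e2, logDeriv_apply, logDeriv_apply]
    field_simp
  rw [e1, norm_mul]
  exact mul_le_mul_of_nonneg_right hb (norm_nonneg _)

/-- The quotient on the right varies slowly. -/
theorem slow (h1 : S_HA) {G : ℂ → ℂ} (hG : Cl G) {C T8 : ℝ} (hT8 : 3 ≤ T8)
    (hri : ∀ z : ℂ, 1 ≤ z.re → z.re ≤ 6 → T8 ≤ z.im → G z ≠ 0 ∧ ‖logDeriv G z - logDeriv HH z‖ ≤ C)
    {a b : ℂ} (ha1 : 1 ≤ a.re) (ha2 : a.re ≤ 6) (ha3 : T8 ≤ a.im) (hb1 : 1 ≤ b.re)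
    (hb2 : b.re ≤ 6) (hb3 : T8 ≤ b.im) :
    ‖G b‖ / ‖HH b‖ ≤ Real.exp (C * ‖b - a‖) * (‖G a‖ / ‖HH a‖) := by
  have key : ∀ t ∈ Icc (0 : ℝ) 1, 1 ≤ (a + t * (b - a)).re ∧ (a + t * (b - a)).re ≤ 6 ∧
      T8 ≤ (a + t * (b - a)).im := by
    intro t ht
    have e1 : (a + t * (b - a)).re = a.re + t * (b.re - a.re) := by simp
    have e2 : (a + t * (b - a)).im = a.im + t * (b.im - a.im) := by simp
    rw [e1, e2]
    obtain ⟨t0, t1⟩ := ht
    refine ⟨?_, ?_, ?_⟩ <;> nlinarith
  have h2 := gron (q := fun w => G w / HH w) (a := a) (b := b) (C := C)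
    (fun t ht => by
      obtain ⟨k1, k2, k3⟩ := key t ht
      obtain ⟨r1, r2⟩ := hri _ k1 k2 k3
      exact (quot (hG.an _ (by linarith)) (h1.1 _ (by linarith)).1 (h1.1 _ (by linarith)).2 r1 r2).1)
    (fun t ht => by
      obtain ⟨k1, k2, k3⟩ := key t ht
      obtain ⟨r1, r2⟩ := hri _ k1 k2 k3
      exact (quot (hG.an _ (by linarith)) (h1.1 _ (by linarith)).1 (h1.1 _ (by linarith)).2 r1 r2).2)
  simp only [norm_div] at h2
  exact h2

theorem step (h1 : S_HA) (b : Bool) (G : ℂ → ℂ) (hG : Cl G) (e e' δ : ℝ)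
    (he : 0 < e) (he' : 0 < e') (hδ : 0 < δ) : ∃ T0 : ℝ, 3 ≤ T0 ∧
    ∀ T θ : ℝ, T0 ≤ T → 0 ≤ θ → (∀ y : ℝ, |y - T| ≤ δ → UBJ G θ y e) →
      UBJ (Op b G) (θ + δ) T (e + e') := by
  have h1' := h1
  obtain ⟨hHH, C7, T7, hC7, hT7, hHA⟩ := h1
  obtain ⟨C8, T8, hC8, hT8, hri⟩ := hG.right 1 6 (by norm_num) (by norm_num)
  obtain ⟨D, hD⟩ : ∃ D : ℝ, D = Real.exp e * Real.exp (2 * C8) * Real.exp (C7 + 1) := ⟨_, rfl⟩
  have hD0 : 0 < D := by rw [hD]; positivity
  obtain ⟨T6, hT6, hL6⟩ := const_exp (8 * D) e' he'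
  refine ⟨T6 + T7 + T8 + 1 + Real.exp (1 / δ) + Real.exp (4 * (C7 + C8)), by
    linarith [Real.exp_pos (1 / δ), Real.exp_pos (4 * (C7 + C8))], ?_⟩
  intro T θ hT hθ hUB x hx hx3
  have ex1 := Real.exp_pos (1 / δ)
  have ex2 := Real.exp_pos (4 * (C7 + C8))
  have hTf : 3 ≤ T := by linarith
  have hT0 : 0 < T := by linarith
  obtain ⟨L, hL⟩ : ∃ L : ℝ, L = Real.log T := ⟨_, rfl⟩
  have hL1 : 1 ≤ L := by
    rw [hL, Real.le_log_iff_exp_le hT0]
    linarith [Real.exp_one_lt_d9]
  have hLδ : 1 / δ ≤ L := by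
    rw [hL, Real.le_log_iff_exp_le hT0]
    linarith
  have hL4 : 4 * (C7 + C8) ≤ L := by
    rw [hL, Real.le_log_iff_exp_le hT0]
    linarith
  have hLi0 : 0 < 1 / L := by positivity
  have hLi1 : 1 / L ≤ 1 := by
    rw [div_le_one (by linarith)]
    exact hL1
  have hLiδ : 1 / L ≤ δ := by
    rw [div_le_iff₀ (by linarith)]
    rw [div_le_iff₀ hδ] at hLδ
    linarith
  have hlogT1 : ∀ y : ℝ, 0 < y → y ≤ T + 1 → Real.log y ≤ L + 1 := by
    intro y hy0 hy
    have h2 : Real.log y ≤ Real.log (T * Real.exp 1) := by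
      refine Real.log_le_log hy0 (hy.trans ?_)
      nlinarith [Real.add_one_le_exp (1 : ℝ)]
    rw [Real.log_mul hT0.ne' (Real.exp_pos 1).ne', Real.log_exp, ← hL] at h2
    exact h2
  obtain ⟨z, hz⟩ : ∃ z : ℂ, z = (x : ℂ) + I * T := ⟨_, rfl⟩
  obtain ⟨c, hc⟩ : ∃ c : ℂ, c = 3 + I * T := ⟨_, rfl⟩
  have hzre : z.re = x := by rw [hz]; simp
  have hzim : z.im = T := by rw [hz]; simp
  have hcre : c.re = 3 := by rw [hc]; simp
  have hcim : c.im = T := by rw [hc]; simp
  have hx0 : 0 ≤ x := by linarith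
  have hHz : 0 < ‖HH z‖ := norm_pos_iff.2 (hHH _ (by rw [hzim]; linarith)).2
  have hHc : 0 < ‖HH c‖ := norm_pos_iff.2 (hHH _ (by rw [hcim]; linarith)).2
  obtain ⟨m, hm⟩ : ∃ m : ℝ, m = ‖G c‖ / ‖HH c‖ := ⟨_, rfl⟩
  have hm0 : 0 ≤ m := by rw [hm]; positivity
  -- the disc
  have hdisc : ∀ w : ℂ, ‖w - z‖ ≤ 1 / L → ‖G w‖ ≤ D * (Real.exp (e * L) * ‖HH z‖ * m) := by
    intro w hw
    have r1 : |w.re - x| ≤ 1 / L := by
      have := Complex.abs_re_le_norm (w - z)
      rw [Complex.sub_re, hzre] at this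
      exact this.trans hw
    have r2 : |w.im - T| ≤ 1 / L := by
      have := Complex.abs_im_le_norm (w - z)
      rw [Complex.sub_im, hzim] at this
      exact this.trans hw
    have r1' := abs_le.1 r1
    have r2' := abs_le.1 r2
    have hwim : 0 < w.im := by linarith [r2'.1]
    have hHw : 0 < ‖HH w‖ := norm_pos_iff.2 (hHH _ hwim).2
    have b1 : ‖HH w‖ ≤ Real.exp (C7 + 1) * ‖HH z‖ := by
      have k0 : ∀ t ∈ Icc (0 : ℝ) 1, -1 ≤ (z + t * (w - z)).re ∧ (z + t * (w - z)).re ≤ 40 ∧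
          T7 ≤ (z + t * (w - z)).im ∧ (z + t * (w - z)).im ≤ T + 1 := by
        intro t ht
        have e1 : (z + t * (w - z)).re = x + t * (w.re - x) := by simp [hzre]
        have e2 : (z + t * (w - z)).im = T + t * (w.im - T) := by simp [hzim]
        rw [e1, e2]
        obtain ⟨t0, t1⟩ := ht
        have q1 : |t * (w.re - x)| ≤ 1 := by
          rw [abs_mul, abs_of_nonneg t0]
          nlinarith [abs_nonneg (w.re - x)]
        have q2 : |t * (w.im - T)| ≤ 1 := by
          rw [abs_mul, abs_of_nonneg t0]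
          nlinarith [abs_nonneg (w.im - T)]
        have q1' := abs_le.1 q1
        have q2' := abs_le.1 q2
        refine ⟨?_, ?_, ?_, ?_⟩ <;> linarith [q1'.1, q1'.2, q2'.1, q2'.2]
      have k1 := gron (q := HH) (a := z) (b := w) (C := (C7 + 1) * L)
        (fun t ht => (hHH _ (by linarith [(k0 t ht).2.2.1])).1.differentiableAt)
        (fun t ht => by
          obtain ⟨p1, p2, p3, p4⟩ := k0 t ht
          obtain ⟨s1, -, -⟩ := hHA _ p1 p2 p3
          obtain ⟨p, hp⟩ : ∃ p : ℂ, p = z + t * (w - z) := ⟨_, rfl⟩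
          rw [← hp] at p1 p2 p3 p4 s1 ⊢
          have hp0 : HH p ≠ 0 := (hHH p (by linarith)).2
          have s2 : deriv HH p = logDeriv HH p * HH p := by
            rw [logDeriv_apply]
            field_simp
          rw [s2, norm_mul]
          refine mul_le_mul_of_nonneg_right ?_ (norm_nonneg _)
          have s3 : ‖((Om p.im : ℝ) : ℂ)‖ ≤ (L + 1) / 2 := by
            rw [Complex.norm_real, Real.norm_eq_abs]
            unfold Om
            have s4 : 0 ≤ Real.log p.im := Real.log_nonneg (by linarith)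
            rw [abs_of_nonneg (by linarith)]
            have s5 := hlogT1 p.im (by linarith) p4
            linarith
          have s4 : logDeriv HH p = (logDeriv HH p - ((Om p.im : ℝ) : ℂ)) + ((Om p.im : ℝ) : ℂ) := by
            ring
          rw [s4]
          refine (norm_add_le _ _).trans ?_
          nlinarith)
      refine k1.trans (mul_le_mul_of_nonneg_right (Real.exp_le_exp.2 ?_) hHz.le)
      have k2 : L * (1 / L) = 1 := by field_simp
      calc (C7 + 1) * L * ‖w - z‖ ≤ (C7 + 1) * L * (1 / L) :=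
            mul_le_mul_of_nonneg_left hw (by positivity)
        _ = C7 + 1 := by rw [mul_assoc, k2, mul_one]
    have b2 : ‖G w‖ / ‖HH w‖ ≤ Real.exp e * Real.exp (2 * C8) * (Real.exp (e * L) * m) := by
      have u1 : 1 ≤ Real.exp e := Real.one_le_exp he.le
      have u2 : 1 ≤ Real.exp (e * L) := Real.one_le_exp (by positivity)
      by_cases h3 : w.re ≤ 3
      · have h4 := hUB w.im (r2.trans hLiδ) w.re (by linarith [r1'.1]) h3
        have ew : (w.re : ℂ) + I * (w.im : ℂ) = w := by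
          rw [mul_comm I]
          exact Complex.re_add_im w
        rw [ew] at h4
        obtain ⟨y, hy⟩ : ∃ y : ℝ, y = w.im := ⟨_, rfl⟩
        rw [← hy] at h4 hwim r2 r2'
        have h5 := slow h1' hG hT8 hri (a := c) (b := 3 + I * (y : ℂ)) (by rw [hcre]; norm_num)
          (by rw [hcre]; norm_num) (by rw [hcim]; linarith) (by simp) (by simp; norm_num)
          (by simp; linarith [r2'.1])
        have h6 : ‖3 + I * (y : ℂ) - c‖ ≤ 1 := by
          have : 3 + I * (y : ℂ) - c = I * ((y - T : ℝ) : ℂ) := by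
            rw [hc]
            push_cast
            ring
          rw [this, norm_mul, Complex.norm_I, one_mul, Complex.norm_real, Real.norm_eq_abs]
          exact r2.trans hLi1
        rw [← hm] at h5
        rw [div_le_iff₀ hHw]
        have h7 : Real.exp (C8 * ‖3 + I * (y : ℂ) - c‖) ≤ Real.exp (2 * C8) := by
          refine Real.exp_le_exp.2 ?_
          nlinarith [norm_nonneg (3 + I * (y : ℂ) - c)]
        have h8 : Real.exp (e * Real.log y) ≤ Real.exp e * Real.exp (e * L) := by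
          rw [← Real.exp_add]
          refine Real.exp_le_exp.2 ?_
          have := hlogT1 y hwim (by linarith [r2'.2])
          nlinarith
        calc ‖G w‖ ≤ Real.exp (e * Real.log y) * ‖HH w‖ *
              (‖G (3 + I * (y : ℂ))‖ / ‖HH (3 + I * (y : ℂ))‖) := h4
          _ ≤ (Real.exp e * Real.exp (e * L)) * ‖HH w‖ * (Real.exp (2 * C8) * m) := by
              refine mul_le_mul (mul_le_mul_of_nonneg_right h8 hHw.le) ?_ (by positivity)
                (by positivity)
              exact h5.trans (mul_le_mul_of_nonneg_right h7 hm0)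
          _ = _ := by ring
      · push Not at h3
        have h5 := slow h1' hG hT8 hri (a := c) (b := w) (by rw [hcre]; norm_num)
          (by rw [hcre]; norm_num) (by rw [hcim]; linarith) (by linarith) (by linarith [r1'.2])
          (by linarith [r2'.1])
        have h6 : ‖w - c‖ ≤ 2 := by
          have e1 : w - c = (w - z) + ((x - 3 : ℝ) : ℂ) := by
            rw [hc, hz]
            push_cast
            ring
          rw [e1]
          refine (norm_add_le _ _).trans ?_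
          rw [Complex.norm_real, Real.norm_eq_abs]
          have : |x - 3| ≤ 1 := by
            rw [abs_le]
            constructor <;> linarith [r1'.2]
          linarith
        rw [← hm] at h5
        have h7 : Real.exp (C8 * ‖w - c‖) ≤ Real.exp (2 * C8) := by
          refine Real.exp_le_exp.2 ?_
          nlinarith [norm_nonneg (w - c)]
        refine h5.trans ((mul_le_mul_of_nonneg_right h7 hm0).trans ?_)
        have h8 : 0 ≤ Real.exp (2 * C8) * m := by positivity
        have h9 : 1 ≤ Real.exp e * Real.exp (e * L) := one_le_mul_of_one_le_of_one_le u1 u2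
        calc Real.exp (2 * C8) * m ≤ (Real.exp e * Real.exp (e * L)) * (Real.exp (2 * C8) * m) :=
              le_mul_of_one_le_left h8 h9
          _ = _ := by ring
    rw [div_le_iff₀ hHw] at b2
    calc ‖G w‖ ≤ Real.exp e * Real.exp (2 * C8) * (Real.exp (e * L) * m) * ‖HH w‖ := b2
      _ ≤ Real.exp e * Real.exp (2 * C8) * (Real.exp (e * L) * m) * (Real.exp (C7 + 1) * ‖HH z‖) :=
          mul_le_mul_of_nonneg_left b1 (by positivity)
      _ = _ := by rw [hD]; ring
  have hder : ‖deriv G z‖ ≤ D * (Real.exp (e * L) * ‖HH z‖ * m) / (1 / L) := by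
    have hU : DifferentiableOn ℂ G {w : ℂ | 0 < w.im} := fun w hw =>
      (hG.an w hw).differentiableAt.differentiableWithinAt
    have hsub : closedBall z (1 / L) ⊆ {w : ℂ | 0 < w.im} := by
      intro w hw
      rw [mem_closedBall, dist_eq_norm] at hw
      have r2 : |w.im - T| ≤ 1 / L := by
        have := Complex.abs_im_le_norm (w - z)
        rw [Complex.sub_im, hzim] at this
        exact this.trans hw
      have r2' := abs_le.1 r2
      show 0 < w.im
      linarith [r2'.1]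
    refine Complex.norm_deriv_le_of_forall_mem_sphere_norm_le hLi0 (hU.diffContOnCl_ball hsub)
      fun w hw => hdisc w (le_of_eq ?_)
    rw [← dist_eq_norm]
    exact mem_sphere.1 hw
  have hz0 : z ≠ 0 := by
    intro h
    rw [h, Complex.zero_im] at hzim
    linarith
  have hc0 : c ≠ 0 := by
    intro h
    rw [h, Complex.zero_im] at hcim
    linarith
  have haz := az_pos b hz0
  have hac := az_pos b hc0
  have hcmp : ‖az b c‖ ≤ 2 * ‖az b z‖ := by
    apply az_cmp
    have e1 : ‖c‖ ≤ 3 + T := by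
      rw [hc]
      refine (norm_add_le _ _).trans ?_
      rw [norm_mul, Complex.norm_I, one_mul, Complex.norm_real, Complex.norm_ofNat, Real.norm_eq_abs,
        abs_of_nonneg hT0.le]
    have e2 : T ≤ ‖z‖ := by
      have := Complex.abs_im_le_norm z
      rwa [hzim, abs_of_nonneg hT0.le] at this
    linarith
  obtain ⟨r1, r2⟩ := hri c (by rw [hcre]; norm_num) (by rw [hcre]; norm_num) (by rw [hcim]; linarith)
  obtain ⟨r3, -, -⟩ := hHA c (by rw [hcre]; norm_num) (by rw [hcre]; norm_num)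
    (by rw [hcim]; linarith)
  rw [hcim] at r3
  have hGc : 0 < ‖G c‖ := norm_pos_iff.2 r1
  have r4 : L / 4 ≤ ‖logDeriv G c‖ := by
    have e1 : ((Om T : ℝ) : ℂ) = logDeriv G c - (logDeriv G c - logDeriv HH c) -
        (logDeriv HH c - ((Om T : ℝ) : ℂ)) := by ring
    have e2 : ‖((Om T : ℝ) : ℂ)‖ = L / 2 := by
      rw [Complex.norm_real, Real.norm_eq_abs]
      unfold Om
      rw [← hL, abs_of_nonneg (by linarith)]
    have e3 := norm_sub_le (logDeriv G c - (logDeriv G c - logDeriv HH c))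
      (logDeriv HH c - ((Om T : ℝ) : ℂ))
    have e4 := norm_sub_le (logDeriv G c) (logDeriv G c - logDeriv HH c)
    rw [← e1, e2] at e3
    linarith
  obtain ⟨m1, hm1⟩ : ∃ m1 : ℝ, m1 = ‖Op b G c‖ / ‖HH c‖ := ⟨_, rfl⟩
  have hm10 : 0 ≤ m1 := by rw [hm1]; positivity
  have r5 : L / 4 * m ≤ ‖az b c‖ * m1 := by
    have e1 : deriv G c = logDeriv G c * G c := by
      rw [logDeriv_apply]
      field_simp
    have e2 : ‖az b c‖ * ‖Op b G c‖ = ‖logDeriv G c‖ * ‖G c‖ := by
      rw [← norm_mul, ← norm_mul, ← deriv_eq b G hc0, e1]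
    rw [hm, hm1, ← mul_div_assoc, ← mul_div_assoc, e2]
    exact div_le_div_of_nonneg_right (mul_le_mul_of_nonneg_right r4 hGc.le) hHc.le
  have r6 : ‖az b z‖ * ‖Op b G z‖ ≤ ‖az b z‖ * (8 * D * (Real.exp (e * L) * ‖HH z‖ * m1)) := by
    rw [← norm_mul, ← deriv_eq b G hz0]
    refine hder.trans ?_
    have e1 : D * (Real.exp (e * L) * ‖HH z‖ * m) / (1 / L) =
        4 * D * (Real.exp (e * L) * ‖HH z‖) * (L / 4 * m) := by
      field_simp
    rw [e1]
    calc 4 * D * (Real.exp (e * L) * ‖HH z‖) * (L / 4 * m) ≤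
          4 * D * (Real.exp (e * L) * ‖HH z‖) * ((2 * ‖az b z‖) * m1) := by
          apply mul_le_mul_of_nonneg_left _ (by positivity)
          exact r5.trans (mul_le_mul_of_nonneg_right hcmp hm10)
      _ = _ := by ring
  have r7 := le_of_mul_le_mul_left r6 haz
  rw [← hz, ← hc, ← hL, ← hm1]
  refine r7.trans ?_
  have r8 := hL6 T (by linarith)
  rw [← hL] at r8
  calc 8 * D * (Real.exp (e * L) * ‖HH z‖ * m1) ≤
        Real.exp (e' * L) * (Real.exp (e * L) * ‖HH z‖ * m1) :=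
        mul_le_mul_of_nonneg_right r8 (by positivity)
    _ = _ := by
        rw [show (e + e') * L = e' * L + e * L by ring, Real.exp_add]
        ring

lemma cl_It (h1 : S_C0) (h2 : S_CD) : ∀ l : List Bool, Cl (It l)
  | [] => h1
  | b :: l => h2 b (It l) (cl_It h1 h2 l)

theorem many (h1 : S_HA) (h3 : S_C0) (h4 : S_CD) (l : List Bool) :
    ∀ e e' δ : ℝ, 0 < e → 0 < e' → 0 < δ → ∃ T0 : ℝ, 3 ≤ T0 ∧
    ∀ T θ : ℝ, T0 ≤ T → 0 ≤ θ → (∀ y : ℝ, |y - T| ≤ δ → UBJ XX θ y e) →
      UBJ (It l) (θ + δ) T (e + e') := by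
  induction l with
  | nil =>
    intro e e' δ he he' hδ
    refine ⟨3, le_refl _, ?_⟩
    intro T θ hT hθ hUB x hx hx3
    have h5 := hUB T (by rw [sub_self, abs_zero]; exact hδ.le) x (by linarith) hx3
    refine h5.trans ?_
    have h6 : 0 ≤ Real.log T := Real.log_nonneg (by linarith)
    have h7 : Real.exp (e * Real.log T) ≤ Real.exp ((e + e') * Real.log T) :=
      Real.exp_le_exp.2 (by nlinarith)
    refine mul_le_mul_of_nonneg_right (mul_le_mul_of_nonneg_right h7 (norm_nonneg _)) ?_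
    positivity
  | cons b l ih =>
    intro e e' δ he he' hδ
    obtain ⟨T1, hT1, H1⟩ := ih e (e' / 2) (δ / 2) he (by positivity) (by positivity)
    obtain ⟨T2, hT2, H2⟩ := step h1 b (It l) (cl_It h3 h4 l) (e + e' / 2) (e' / 2) (δ / 2)
      (by positivity) (by positivity) (by positivity)
    refine ⟨T1 + T2 + δ, by linarith, ?_⟩
    intro T θ hT hθ hUB
    have h5 := H2 T (θ + δ / 2) (by linarith) (by linarith) ?_
    · have e1 : θ + δ / 2 + δ / 2 = θ + δ := by ring
      have e2 : e + e' / 2 + e' / 2 = e + e' := by ring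
      rwa [e1, e2] at h5
    · intro y hy
      have hy' := abs_le.1 hy
      refine H1 y θ (by linarith [hy'.1]) hθ fun y' hy2 => hUB y' ?_
      have h6 : |y' - T| ≤ |y' - y| + |y - T| := abs_sub_le y' y T
      linarith

theorem t_JC (h1 : S_HA) (h3 : S_C0) (h4 : S_CD) : S_JC := by
  intro l ε δ hε hδ hδ2
  obtain ⟨T0, hT0, H⟩ := many h1 h3 h4 l ε ε δ hε hε hδ
  refine ⟨T0, hT0, fun T θ hT hθ hUB => ?_⟩
  have h5 := H T θ hT hθ hUB
  rwa [← two_mul] at h5

end Pool.Agent.Q65.BD.JC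

namespace Pool.Agent.Q65.BD

open Pool.Agent.Q260.DJ in
theorem t_JC (h1 : S_HA) (_h2 : S_HB) (h3 : S_C0) (h4 : S_CD) : S_JC := JC.t_JC h1 h3 h4

end Pool.Agent.Q65.BD
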