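import Pool.Agent.Q65.BD.JC
import Pool.Agent.H370R2.Local

set_option autoImplicit false
set_option linter.all false

/-!
Project BD (helper260), job JF: an upper bound gives few zeros (Jensen), class `Cl`.
-/

namespace Pool.Agent.Q65.BD.JF

open Complex Filter Topology Metric Set
open Pool.Agent.H24R2.JP (HH XX Om)
open Pool.Agent.Q260.DJ
open Pool.Agent.Q260.DS (Few)
open Pool.Agent.Q65.BD.JC (slow)

theorem order_unit {G u : ℂ → ℂ} {z : ℂ} (hG : AnalyticAt ℂ G z) (hu : AnalyticAt ℂ u z)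
    (hu0 : u z ≠ 0) : analyticOrderNatAt (fun w => u w * G w) z = analyticOrderNatAt G z := by
  unfold analyticOrderNatAt
  have h3 := analyticOrderAt_mul hu hG
  have h4 : analyticOrderAt u z = 0 := by
    rw [hu.analyticOrderAt_eq_zero]
    exact hu0
  rw [h4, zero_add] at h3
  have h5 : (fun w => u w * G w) = u * G := rfl
  rw [h5, h3]

theorem log_ratio {ρ δ : ℝ} (h1 : 1 ≤ ρ) (h2 : ρ ≤ 3) (h3 : 0 < δ) (h4 : δ ≤ 1 / 2) :
    δ / 6 ≤ Real.log (ρ / (ρ - δ / 2)) := by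
  have h5 : 0 < ρ - δ / 2 := by linarith
  have h6 := Real.one_sub_inv_le_log_of_pos (x := ρ / (ρ - δ / 2)) (by positivity)
  rw [inv_div] at h6
  have h7 : 1 - (ρ - δ / 2) / ρ = δ / 2 / ρ := by
    field_simp
    ring
  rw [h7] at h6
  refine le_trans ?_ h6
  rw [le_div_iff₀ (by linarith)]
  nlinarith

/-- One window. -/
theorem window (h1 : S_HA) (G : ℂ → ℂ) (hG : Cl G) : ∃ C8 T8 : ℝ, 0 < C8 ∧ 3 ≤ T8 ∧
    ∀ T R δ e : ℝ, 0 < δ → δ ≤ 1 / 2 → 0 < e → 0 ≤ R → T8 + R + 5 ≤ T → ∀ θ : ℝ, 0 ≤ θ → θ ≤ 3 / 2 →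
    (∀ y : ℝ, |y - T| ≤ R + 4 → UBJ G θ y e) → ∀ T' : ℝ, |T' - T| ≤ R + 1 → ∀ S : Finset ℂ,
    (∀ z ∈ S, θ + δ ≤ z.re ∧ z.re ≤ 2 ∧ |z.im - T'| ≤ δ / 2) →
    ∑ z ∈ S, (analyticOrderNatAt G z : ℝ) ≤ (2 * e * Real.log T + 3 * C8) * (6 / δ) := by
  have h1' := h1
  obtain ⟨hHH, -⟩ := h1
  obtain ⟨C8, T8, hC8, hT8, hri⟩ := hG.right 1 6 (by norm_num) (by norm_num)
  refine ⟨C8, T8, hC8, hT8, ?_⟩
  intro T R δ e hδ hδ2 he hR hT θ hθ0 hθ hUB T' hT' S hS
  have hT'1 := abs_le.1 hT'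
  have hT0 : 0 < T := by linarith
  have hlog : 0 ≤ Real.log T := Real.log_nonneg (by linarith)
  obtain ⟨c, hc⟩ : ∃ c : ℂ, c = 3 + I * T' := ⟨_, rfl⟩
  have hcre : c.re = 3 := by rw [hc]; simp
  have hcim : c.im = T' := by rw [hc]; simp
  obtain ⟨ρ, hρ⟩ : ∃ ρ : ℝ, ρ = 3 - θ := ⟨_, rfl⟩
  have hρ1 : 3 / 2 ≤ ρ := by linarith
  have hρ3 : ρ ≤ 3 := by linarith
  obtain ⟨hGc0, -⟩ := hri c (by rw [hcre]; norm_num) (by rw [hcre]; norm_num)
    (by rw [hcim]; linarith [hT'1.1])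
  have hGc : 0 < ‖G c‖ := norm_pos_iff.2 hGc0
  have hHc : 0 < ‖HH c‖ := norm_pos_iff.2 (hHH _ (by rw [hcim]; linarith [hT'1.1])).2
  obtain ⟨m, hm⟩ : ∃ m : ℝ, m = ‖G c‖ / ‖HH c‖ := ⟨_, rfl⟩
  have hm0 : 0 < m := by rw [hm]; positivity
  obtain ⟨a, ha⟩ : ∃ a : ℂ, a = ((m⁻¹ : ℝ) : ℂ) := ⟨_, rfl⟩
  have ha0 : a ≠ 0 := by
    rw [ha]
    exact_mod_cast (inv_pos.2 hm0).ne'
  have hna : ‖a‖ = m⁻¹ := by
    rw [ha, Complex.norm_real, Real.norm_of_nonneg (inv_pos.2 hm0).le]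
  obtain ⟨u, hu⟩ : ∃ u : ℂ → ℂ, u = fun w => a * (HH w)⁻¹ := ⟨_, rfl⟩
  have hball : ∀ w ∈ closedBall c ρ, θ ≤ w.re ∧ w.re ≤ 6 ∧ |w.im - T'| ≤ 3 := by
    intro w hw
    rw [mem_closedBall, dist_eq_norm] at hw
    have h1 := abs_le.1 ((abs_re_le_norm (w - c)).trans hw)
    have h2 := (abs_im_le_norm (w - c)).trans hw
    rw [sub_re, hcre] at h1
    rw [sub_im, hcim] at h2
    exact ⟨by linarith, by linarith, by linarith⟩
  have huan : ∀ w ∈ closedBall c ρ, AnalyticAt ℂ u w ∧ u w ≠ 0 ∧ AnalyticAt ℂ G w ∧ 0 < w.im := by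
    intro w hw
    obtain ⟨-, -, b3⟩ := hball w hw
    have b3' := abs_le.1 b3
    have hwim : 0 < w.im := by linarith [b3'.1, hT'1.1]
    obtain ⟨p1, p2⟩ := hHH w hwim
    refine ⟨?_, ?_, hG.an w hwim, hwim⟩
    · rw [hu]
      exact analyticAt_const.mul (p1.inv p2)
    · rw [hu]
      exact mul_ne_zero ha0 (inv_ne_zero p2)
  have hgc : ‖u c * G c‖ = 1 := by
    rw [hu]
    simp only [norm_mul, norm_inv]
    rw [hna, hm]
    field_simp
  have hM : ∀ w ∈ closedBall c ρ, ‖u w * G w‖ ≤ Real.exp (2 * e * Real.log T + 3 * C8) := by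
    intro w hw
    obtain ⟨b1, b2, b3⟩ := hball w hw
    obtain ⟨-, -, -, hwim⟩ := huan w hw
    have b3' := abs_le.1 b3
    have hHw : 0 < ‖HH w‖ := norm_pos_iff.2 (hHH _ hwim).2
    have e0 : ‖u w * G w‖ = m⁻¹ * (‖G w‖ / ‖HH w‖) := by
      rw [hu]
      simp only [norm_mul, norm_inv]
      rw [hna]
      ring
    have key : ‖G w‖ / ‖HH w‖ ≤ Real.exp (2 * e * Real.log T + 3 * C8) * m := by
      by_cases h3 : w.re ≤ 3
      · obtain ⟨y, hy⟩ : ∃ y : ℝ, y = w.im := ⟨_, rfl⟩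
        have ew : (w.re : ℂ) + I * (y : ℂ) = w := by
          rw [hy, mul_comm I]
          exact Complex.re_add_im w
        rw [← hy] at b3 b3' hwim
        have hyT : |y - T| ≤ R + 4 := by
          have : |y - T| ≤ |y - T'| + |T' - T| := abs_sub_le y T' T
          linarith
        have h4 := hUB y hyT w.re b1 h3
        rw [ew] at h4
        have h5 := slow h1' hG hT8 hri (a := c) (b := 3 + I * (y : ℂ)) (by rw [hcre]; norm_num)
          (by rw [hcre]; norm_num) (by rw [hcim]; linarith [hT'1.1]) (by simp) (by simp; norm_num)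
          (by simp; linarith [b3'.1, hT'1.1])
        rw [← hm] at h5
        have h6 : ‖3 + I * (y : ℂ) - c‖ ≤ 3 := by
          have : 3 + I * (y : ℂ) - c = I * ((y - T' : ℝ) : ℂ) := by
            rw [hc]
            push_cast
            ring
          rw [this, norm_mul, Complex.norm_I, one_mul, Complex.norm_real, Real.norm_eq_abs]
          exact b3
        have h7 : Real.exp (C8 * ‖3 + I * (y : ℂ) - c‖) ≤ Real.exp (3 * C8) := by
          refine Real.exp_le_exp.2 ?_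
          nlinarith [norm_nonneg (3 + I * (y : ℂ) - c)]
        have h8 : Real.exp (e * Real.log y) ≤ Real.exp (2 * e * Real.log T) := by
          refine Real.exp_le_exp.2 ?_
          have h9 : Real.log y ≤ 2 * Real.log T := by
            rw [← Real.log_rpow hT0]
            apply Real.log_le_log hwim
            rw [Real.rpow_two]
            have := abs_le.1 hyT
            nlinarith [this.2]
          nlinarith
        rw [div_le_iff₀ hHw]
        calc ‖G w‖ ≤ Real.exp (e * Real.log y) * ‖HH w‖ *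
              (‖G (3 + I * (y : ℂ))‖ / ‖HH (3 + I * (y : ℂ))‖) := h4
          _ ≤ Real.exp (2 * e * Real.log T) * ‖HH w‖ * (Real.exp (3 * C8) * m) := by
              refine mul_le_mul (mul_le_mul_of_nonneg_right h8 hHw.le) ?_ (by positivity)
                (by positivity)
              exact h5.trans (mul_le_mul_of_nonneg_right h7 hm0.le)
          _ = _ := by
              rw [Real.exp_add]
              ring
      · push Not at h3
        have h5 := slow h1' hG hT8 hri (a := c) (b := w) (by rw [hcre]; norm_num)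
          (by rw [hcre]; norm_num) (by rw [hcim]; linarith [hT'1.1]) (by linarith) b2
          (by linarith [b3'.1, hT'1.1])
        rw [← hm] at h5
        refine h5.trans (mul_le_mul_of_nonneg_right (Real.exp_le_exp.2 ?_) hm0.le)
        have h6 : ‖w - c‖ ≤ 3 := by
          rw [← dist_eq_norm]
          exact (mem_closedBall.1 hw).trans hρ3
        have h7 : 0 ≤ 2 * e * Real.log T := by positivity
        nlinarith [norm_nonneg (w - c)]
    rw [e0]
    calc m⁻¹ * (‖G w‖ / ‖HH w‖) ≤ m⁻¹ * (Real.exp (2 * e * Real.log T + 3 * C8) * m) :=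
          mul_le_mul_of_nonneg_left key (inv_pos.2 hm0).le
      _ = _ := by field_simp
  have hcc : c ∈ closedBall c ρ := mem_closedBall_self (by linarith)
  have hSr : ∀ z ∈ S, z ∈ closedBall c (ρ - δ / 2) := by
    intro z hz
    obtain ⟨k1, k2, k3⟩ := hS z hz
    rw [mem_closedBall, dist_eq_norm]
    refine (Complex.norm_le_abs_re_add_abs_im _).trans ?_
    rw [sub_re, sub_im, hcre, hcim, abs_of_nonpos (by linarith)]
    linarith
  have hj := H370.Loc.jensen_mult (f := fun z => u z * G z) (c := c) (r := ρ - δ / 2) (R := ρ)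
    (M := Real.exp (2 * e * Real.log T + 3 * C8)) (by linarith) (by linarith)
    (Real.one_le_exp (by positivity))
    (fun w hw => (huan w hw).1.mul (huan w hw).2.2.1)
    (mul_ne_zero (huan c hcc).2.1 hGc0) hM S hSr
  have hmult : ∀ z ∈ S, (H370.mult (fun z => u z * G z) z : ℝ) = (analyticOrderNatAt G z : ℝ) := by
    intro z hz
    have hzb : z ∈ closedBall c ρ := closedBall_subset_closedBall (by linarith) (hSr z hz)
    obtain ⟨q1, q2, q3, -⟩ := huan z hzb
    unfold H370.mult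
    rw [order_unit q3 q1 q2]
  rw [Finset.sum_congr rfl hmult, hgc, div_one, Real.log_exp] at hj
  refine hj.trans ?_
  have h7 := log_ratio (ρ := ρ) (δ := δ) (by linarith) hρ3 hδ hδ2
  have h8 : 0 ≤ 2 * e * Real.log T + 3 * C8 := by positivity
  rw [div_eq_mul_inv]
  refine mul_le_mul_of_nonneg_left ?_ h8
  have h9 : 6 / δ = (δ / 6)⁻¹ := by rw [inv_div]
  rw [h9]
  exact inv_anti₀ (by positivity) h7

theorem t_JF (h1 : S_HA) : S_JF := by
  intro G hG δ η R hδ hδ2 hη hR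
  obtain ⟨C8, T8, hC8, hT8, H⟩ := window h1 G hG
  obtain ⟨N, hN⟩ : ∃ N : ℕ, N = ⌊2 * R / δ⌋₊ + 1 := ⟨_, rfl⟩
  have hN1 : (1 : ℝ) ≤ N := by
    rw [hN]
    push_cast
    linarith [Nat.cast_nonneg (α := ℝ) ⌊2 * R / δ⌋₊]
  have hN0 : (0 : ℝ) < N := by linarith
  obtain ⟨M, hM⟩ : ∃ M : ℝ, M = 36 * N * C8 / (δ * η) := ⟨_, rfl⟩
  refine ⟨η * δ / (24 * N), T8 + R + 5 + Real.exp M, by positivity, by
    linarith [Real.exp_pos M], ?_⟩
  intro T θ hT hθ0 hθ hUB Z hZ
  have hexp := Real.exp_pos M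
  have hT0 : 0 < T := by linarith
  have hL : M ≤ Real.log T := by
    rw [Real.le_log_iff_exp_le hT0]
    linarith
  have hmap : ∀ z ∈ Z, ⌊(z.im - T + R) / δ⌋₊ ∈ Finset.range N := by
    intro z hz
    obtain ⟨-, -, -, h2⟩ := hZ z hz
    rw [Finset.mem_range, hN, Nat.lt_add_one_iff]
    refine Nat.floor_le_floor ?_
    have := abs_le.1 h2
    exact div_le_div_of_nonneg_right (by linarith [this.2]) hδ.le
  rw [← Finset.sum_fiberwise_of_maps_to hmap]
  have hone : ∀ i ∈ Finset.range N, ∑ z ∈ Z with ⌊(z.im - T + R) / δ⌋₊ = i,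
      (analyticOrderNatAt G z : ℝ) ≤ (2 * (η * δ / (24 * N)) * Real.log T + 3 * C8) * (6 / δ) := by
    intro i hi
    rw [Finset.mem_range, hN, Nat.lt_add_one_iff] at hi
    have hi2 : (i : ℝ) * δ ≤ 2 * R := by
      have h2 : (i : ℝ) ≤ 2 * R / δ := (Nat.cast_le.2 hi).trans (Nat.floor_le (by positivity))
      rwa [le_div_iff₀ hδ] at h2
    have hi0 : 0 ≤ (i : ℝ) * δ := by positivity
    refine H T R δ (η * δ / (24 * N)) hδ hδ2 (by positivity) hR (by linarith) θ hθ0 hθ hUB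
      (T - R + i * δ + δ / 2) ?_ _ ?_
    · rw [abs_le]
      constructor <;> linarith
    · intro z hz
      rw [Finset.mem_filter] at hz
      obtain ⟨-, h3, h4, h5⟩ := hZ z hz.1
      refine ⟨h3, h4, ?_⟩
      have h5' := abs_le.1 h5
      have h6 : 0 ≤ (z.im - T + R) / δ := div_nonneg (by linarith [h5'.1]) hδ.le
      have h7 := Nat.floor_le h6
      have h8 := Nat.lt_floor_add_one ((z.im - T + R) / δ)
      rw [hz.2] at h7 h8
      rw [le_div_iff₀ hδ] at h7
      rw [div_lt_iff₀ hδ] at h8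
      rw [abs_le]
      constructor <;> linarith
  refine (Finset.sum_le_sum hone).trans ?_
  rw [Finset.sum_const, Finset.card_range, nsmul_eq_mul]
  have e1 : (N : ℝ) * ((2 * (η * δ / (24 * N)) * Real.log T + 3 * C8) * (6 / δ)) =
      η / 2 * Real.log T + 18 * N * C8 / δ := by
    field_simp
    ring
  have e2 : 18 * N * C8 / δ = η / 2 * M := by
    rw [hM]
    field_simp
    ring
  rw [e1, e2]
  nlinarith

end Pool.Agent.Q65.BD.JF

namespace Pool.Agent.Q65.BD

open Pool.Agent.Q260.DJ in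
theorem t_JF (h1 : S_HA) (_h2 : S_HB) : S_JF := JF.t_JF h1

end Pool.Agent.Q65.BD
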