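import Pool.Agent.Q260.DJ.Bk

set_option autoImplicit false
set_option linter.all false

/-!
Project BD (helper260), job JV: vertical integration of upper bounds, class `Cl`. The proof follows
`Pool/Agent/Q177/DJ/VI.lean` (helper177).
-/

namespace Pool.Agent.Q65.BD.JV

open Complex Filter Topology Metric Set
open Pool.Agent.H24R2.JP (HH XX Om)
open Pool.Agent.Q260.DJ

theorem ev_log (K : ℝ) : ∃ T5 : ℝ, ∀ T : ℝ, T5 ≤ T → K * Real.log T ≤ T := by
  have h1 := (Real.isLittleO_log_id_atTop).bound (show (0 : ℝ) < 1 / (1 + |K|) by positivity)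
  obtain ⟨a, ha⟩ := eventually_atTop.1 h1
  refine ⟨max a 1, fun T hT => ?_⟩
  have hT1 : 1 ≤ T := (le_max_right _ _).trans hT
  have h2 := ha T ((le_max_left _ _).trans hT)
  have h3 : 0 ≤ Real.log T := Real.log_nonneg hT1
  have h0 : ‖id T‖ = T := by
    rw [id, Real.norm_eq_abs, abs_of_nonneg (by linarith : (0 : ℝ) ≤ T)]
  rw [Real.norm_eq_abs, abs_of_nonneg h3, h0] at h2
  have h4 : K ≤ 1 + |K| := by linarith [le_abs_self K]
  calc K * Real.log T ≤ (1 + |K|) * Real.log T := mul_le_mul_of_nonneg_right h4 h3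
    _ ≤ (1 + |K|) * (1 / (1 + |K|) * T) := mul_le_mul_of_nonneg_left h2 (by positivity)
    _ = T := by field_simp

/-- `C log T ≤ exp (ε log T)` for large `T`. -/
theorem lin_exp (C ε : ℝ) (hε : 0 < ε) : ∃ T6 : ℝ, 3 ≤ T6 ∧ ∀ T : ℝ, T6 ≤ T →
    C * Real.log T ≤ Real.exp (ε * Real.log T) := by
  obtain ⟨M, hM⟩ : ∃ M : ℝ, M = 2 * |C| / ε ^ 2 := ⟨_, rfl⟩
  refine ⟨3 + Real.exp M, by linarith [Real.exp_pos M], fun T hT => ?_⟩
  have hT0 : 0 < T := by linarith [Real.exp_pos M]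
  have hL2 : M ≤ Real.log T := by
    rw [Real.le_log_iff_exp_le hT0]
    linarith
  have hL1 : 0 ≤ Real.log T := Real.log_nonneg (by linarith [Real.exp_pos M])
  rw [hM, div_le_iff₀ (by positivity)] at hL2
  have h1 := Real.quadratic_le_exp_of_nonneg (x := ε * Real.log T) (by positivity)
  have h2 : |C| * Real.log T ≤ (ε * Real.log T) ^ 2 / 2 := by nlinarith
  have h3 : C * Real.log T ≤ |C| * Real.log T := mul_le_mul_of_nonneg_right (le_abs_self C) hL1
  nlinarith [mul_nonneg hε.le hL1]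

/-- the factor `1` or `2 z` -/
noncomputable def az (b : Bool) (z : ℂ) : ℂ := if b then 2 * z else 1

theorem deriv_eq (b : Bool) (F : ℂ → ℂ) {z : ℂ} (hz : z ≠ 0) :
    deriv F z = az b z * Op b F z := by
  unfold az Op
  cases b
  · simp
  · simp only [if_true]
    field_simp

theorem az_two (b : Bool) {z : ℂ} {v : ℝ} (hv : 0 ≤ v) (hvz : v ≤ ‖z‖) :
    ‖az b (z + I * v)‖ ≤ 2 * ‖az b z‖ := by
  unfold az
  cases b
  · simp
  · simp only [if_true]
    have h1 : ‖z + I * v‖ ≤ ‖z‖ + v := by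
      refine (norm_add_le _ _).trans ?_
      rw [norm_mul, Complex.norm_I, one_mul, Complex.norm_real, Real.norm_eq_abs, abs_of_nonneg hv]
    rw [norm_mul, norm_mul, Complex.norm_ofNat]
    linarith

theorem az_one (b : Bool) {z : ℂ} (hz : 1 ≤ ‖z‖) : 1 ≤ ‖az b z‖ := by
  unfold az
  cases b
  · simp
  · simp only [if_true]
    rw [norm_mul, Complex.norm_ofNat]
    linarith

theorem az_cmp (b : Bool) {z w : ℂ} (h : ‖z‖ ≤ 2 * ‖w‖) : ‖az b z‖ ≤ 2 * ‖az b w‖ := by
  unfold az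
  cases b
  · simp
  · simp only [if_true]
    rw [norm_mul, norm_mul, Complex.norm_ofNat]
    linarith

theorem t_JV (h1 : S_HA) (h2 : S_HB) : S_JV := by
  intro b F hF hG ε hε
  obtain ⟨hHH, C7, T7, hC7, hT7, hHA⟩ := h1
  obtain ⟨C3, T3, hC3, hT3, hB, -⟩ := h2
  obtain ⟨k, j, C2, T2, hC2, hT2, hM⟩ := hG.mass
  obtain ⟨A, T4, hA, hT4, hgr⟩ := hF.grow (-(1 / 2)) 6 (by norm_num) (by norm_num)
  obtain ⟨C8, T8, hC8, hT8, hri⟩ := hF.right 1 6 (by norm_num) (by norm_num)
  obtain ⟨K, hK⟩ : ∃ K : ℝ, K = 2 * (2 * A + j) := ⟨_, rfl⟩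
  have hK0 : 0 ≤ K := by rw [hK]; positivity
  obtain ⟨T5, hT5⟩ := ev_log K
  obtain ⟨C5, hC5⟩ : ∃ C5 : ℝ, C5 = (4 * C2 * 2 ^ k + 1) * (2 * C2 * (1 + C7 + C8)) := ⟨_, rfl⟩
  have hC50 : 0 ≤ C5 := by rw [hC5]; positivity
  obtain ⟨T6, hT6, hL6⟩ := lin_exp C5 ε hε
  refine ⟨K + 1, T6 + T2 + T3 + T4 + |T5| + 3 + T7 + T8, by linarith, by
    linarith [abs_nonneg T5], ?_⟩
  intro T θ hT hθ0 hUB x hxθ hx3
  have habs := abs_nonneg T5
  have hTb : T2 ≤ T := by linarith
  have hTc : T3 ≤ T := by linarith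
  have hTd : T4 ≤ T := by linarith
  have hTe : T5 ≤ T := by linarith [le_abs_self T5]
  have hTf : 3 ≤ T := by linarith
  have hTg : T6 ≤ T := by linarith
  have hTh : T7 ≤ T := by linarith
  have hTi : T8 ≤ T := by linarith
  have hT0 : 0 < T := by linarith
  have hlog : 1 ≤ Real.log T := by
    rw [Real.le_log_iff_exp_le hT0]
    linarith [Real.exp_one_lt_d9]
  obtain ⟨V, hV⟩ : ∃ V : ℝ, V = K * Real.log T := ⟨_, rfl⟩
  have hV0 : 0 ≤ V := by rw [hV]; positivity
  have hVT : V ≤ T := by rw [hV]; exact hT5 T hTe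
  have hx0 : 0 ≤ x := by linarith
  obtain ⟨z, hz⟩ : ∃ z : ℂ, z = ((x : ℝ) : ℂ) + I * T := ⟨_, rfl⟩
  rw [← hz]
  have hzim : z.im = T := by simp [hz]
  have hzre : z.re = x := by simp [hz]
  have hznorm : T ≤ ‖z‖ := by
    have := Complex.abs_im_le_norm z
    rw [hzim, abs_of_nonneg hT0.le] at this
    exact this
  -- the points above z
  have hpt : ∀ v : ℝ, z + I * v = ((x : ℝ) : ℂ) + I * ((T + v : ℝ) : ℂ) := by
    intro v
    rw [hz]
    push_cast
    ring
  have him : ∀ v : ℝ, (z + I * v).im = T + v := by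
    intro v
    rw [hpt]
    simp
  have hre : ∀ v : ℝ, (z + I * v).re = x := by
    intro v
    rw [hpt]
    simp
  have hne : ∀ v : ℝ, 0 ≤ v → z + I * v ≠ 0 := by
    intro v hv h
    have := congrArg Complex.im h
    rw [him, Complex.zero_im] at this
    linarith
  have hlogv : ∀ v : ℝ, 0 ≤ v → v ≤ V → Real.log (T + v) ≤ 2 * Real.log T := by
    intro v hv hvV
    rw [← Real.log_rpow hT0]
    apply Real.log_le_log (by linarith)
    rw [Real.rpow_two]
    nlinarith
  have hlogv0 : ∀ v : ℝ, 0 ≤ v → 0 ≤ Real.log (T + v) := fun v hv =>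
    Real.log_nonneg (by linarith)
  obtain ⟨Q, hQ⟩ : ∃ Q : ℝ, Q = Real.log T ^ k / T ^ j := ⟨_, rfl⟩
  have hQ0 : 0 < Q := by rw [hQ]; positivity
  obtain ⟨E2, hE2⟩ : ∃ E2 : ℝ, E2 = Real.exp (2 * ε * Real.log T) := ⟨_, rfl⟩
  have hE20 : 1 ≤ E2 := by
    rw [hE2]
    exact Real.one_le_exp (by positivity)
  obtain ⟨B, hBd⟩ : ∃ B : ℝ, B = 2 * ‖az b z‖ * (C2 * 2 ^ k * Q) * E2 * ‖HH z‖ := ⟨_, rfl⟩
  have hB0 : 0 ≤ B := by rw [hBd]; positivity
  -- the derivative on the vertical line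
  have hder : ∀ v : ℝ, 0 ≤ v → v ≤ V → ‖deriv F (z + I * v)‖ ≤ B * Real.exp (-v / 2) := by
    intro v hv hvV
    have p2 : 0 < ‖HH (z + I * v)‖ := norm_pos_iff.2 (hHH _ (by rw [him]; linarith)).2
    have e2 := hUB (T + v) (by linarith) (by
      rw [add_mul, one_mul, ← hV]
      linarith) x hxθ hx3
    rw [← hpt] at e2
    have e3 := (hM (T + v) (by linarith)).2
    have e4 : Real.log (T + v) ^ k / (T + v) ^ j ≤ 2 ^ k * Q := by
      rw [hQ, ← mul_div_assoc, ← mul_pow]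
      exact div_le_div₀ (by positivity) (pow_le_pow_left₀ (hlogv0 v hv) (hlogv v hv hvV) k)
        (by positivity) (pow_le_pow_left₀ hT0.le (by linarith) j)
    have e5 : Real.exp (ε * Real.log (T + v)) ≤ E2 := by
      rw [hE2]
      refine Real.exp_le_exp.2 ?_
      have := mul_le_mul_of_nonneg_left (hlogv v hv hvV) hε.le
      linarith
    have e6 : ‖Op b F (z + I * v)‖ ≤ E2 * (C2 * (2 ^ k * Q)) * ‖HH (z + I * v)‖ := by
      refine e2.trans ?_
      have e8 : Real.exp (ε * Real.log (T + v)) *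
          (‖Op b F (3 + I * ((T + v : ℝ) : ℂ))‖ / ‖HH (3 + I * ((T + v : ℝ) : ℂ))‖) ≤
          E2 * (C2 * (2 ^ k * Q)) := by
        refine mul_le_mul e5 (e3.trans ?_) (by positivity) (by positivity)
        exact mul_le_mul_of_nonneg_left e4 (by linarith)
      calc Real.exp (ε * Real.log (T + v)) * ‖HH (z + I * v)‖ *
          (‖Op b F (3 + I * ((T + v : ℝ) : ℂ))‖ / ‖HH (3 + I * ((T + v : ℝ) : ℂ))‖) =
          (Real.exp (ε * Real.log (T + v)) *
          (‖Op b F (3 + I * ((T + v : ℝ) : ℂ))‖ / ‖HH (3 + I * ((T + v : ℝ) : ℂ))‖)) *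
            ‖HH (z + I * v)‖ := by ring
        _ ≤ _ := mul_le_mul_of_nonneg_right e8 p2.le
    have e7 : ‖HH (z + I * v)‖ ≤ Real.exp (-v / 2) * ‖HH z‖ := by
      have := hB x T v (by linarith) (by linarith) hTc hv
      rw [← hpt, ← hz] at this
      exact this
    rw [deriv_eq b F (hne v hv), norm_mul]
    calc ‖az b (z + I * v)‖ * ‖Op b F (z + I * v)‖ ≤
        (2 * ‖az b z‖) * (E2 * (C2 * (2 ^ k * Q)) * (Real.exp (-v / 2) * ‖HH z‖)) := by
          refine mul_le_mul (az_two b hv (hvV.trans (hVT.trans hznorm))) (e6.trans ?_)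
            (norm_nonneg _) (by positivity)
          exact mul_le_mul_of_nonneg_left e7 (by positivity)
      _ = B * Real.exp (-v / 2) := by rw [hBd]; ring
  -- mean value inequality
  have hmv : ‖F (z + I * V) - F z‖ ≤ 2 * B := by
    have e1 : ∀ v : ℝ, 0 ≤ v → HasDerivAt (fun u : ℝ => F (z + I * u) - F z)
        (deriv F (z + I * v) * I) v := by
      intro v hv
      have e2 : HasDerivAt F (deriv F (z + I * v)) (z + I * v) :=
        ((hF.an _ (by rw [him]; linarith)).differentiableAt).hasDerivAt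
      have e3 : HasDerivAt (fun u : ℝ => z + I * (u : ℂ)) I v := by
        have := ((Complex.ofRealCLM.hasDerivAt (x := v)).const_mul I).const_add z
        simpa using this
      have e4 := (HasDerivAt.scomp_of_eq v e2 e3 rfl).sub_const (F z)
      rw [smul_eq_mul, mul_comm] at e4
      exact e4
    have e2 := image_norm_le_of_norm_deriv_right_le_deriv_boundary
      (f := fun u : ℝ => F (z + I * u) - F z) (f' := fun v : ℝ => deriv F (z + I * v) * I)
      (a := 0) (b := V) (B := fun v => 2 * B * (1 - Real.exp (-v / 2)))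
      (B' := fun v => B * Real.exp (-v / 2))
      (fun v hv => (e1 v hv.1).continuousAt.continuousWithinAt)
      (fun v hv => (e1 v hv.1).hasDerivWithinAt) (by simp)
      (fun v => by
        have e3 : HasDerivAt (fun v : ℝ => -v / 2) (-1 / 2) v := by
          exact ((hasDerivAt_id v).neg).div_const 2
        have e4 := ((e3.exp).const_sub 1).const_mul (2 * B)
        refine e4.congr_deriv ?_
        ring)
      (fun v hv => by
        rw [norm_mul, Complex.norm_I, mul_one]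
        exact hder v hv.1 hv.2.le)
      (x := V) ⟨hV0, le_refl V⟩
    refine e2.trans ?_
    have e3 : 0 ≤ Real.exp (-V / 2) := (Real.exp_pos _).le
    nlinarith
  -- the top
  have htop : ‖F (z + I * V)‖ ≤ 1 / T ^ j * ‖HH z‖ := by
    have e1 := hgr (z + I * V) (by rw [hre]; linarith) (by rw [hre]; linarith)
      (by rw [him]; linarith)
    rw [him] at e1
    have e7 : ‖HH (z + I * V)‖ ≤ Real.exp (-V / 2) * ‖HH z‖ := by
      have := hB x T V (by linarith) (by linarith) hTc hV0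
      rw [← hpt, ← hz] at this
      exact this
    have e8 : Real.exp (A * Real.log (T + V)) ≤ Real.exp (2 * A * Real.log T) := by
      apply Real.exp_le_exp.2
      have := mul_le_mul_of_nonneg_left (hlogv V hV0 le_rfl) hA.le
      linarith
    have e9 : Real.exp (2 * A * Real.log T) * Real.exp (-V / 2) = 1 / T ^ j := by
      rw [← Real.exp_add, hV, hK]
      have : 2 * A * Real.log T + -(2 * (2 * A + j) * Real.log T) / 2 = -(j * Real.log T) := by
        ring
      rw [this, Real.exp_neg, Real.exp_nat_mul, Real.exp_log hT0, one_div]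
    calc ‖F (z + I * V)‖ ≤ Real.exp (A * Real.log (T + V)) * ‖HH (z + I * V)‖ := e1
      _ ≤ Real.exp (2 * A * Real.log T) * (Real.exp (-V / 2) * ‖HH z‖) :=
          mul_le_mul e8 e7 (norm_nonneg _) (Real.exp_pos _).le
      _ = 1 / T ^ j * ‖HH z‖ := by rw [← mul_assoc, e9]
  have hHz : 0 < ‖HH z‖ := norm_pos_iff.2 (hHH _ (by rw [hzim]; linarith)).2
  have haz : 1 ≤ ‖az b z‖ := az_one b (by linarith)
  have hF1 : ‖F z‖ ≤ (4 * C2 * 2 ^ k + 1) * (‖az b z‖ * E2 * Q * ‖HH z‖) := by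
    have e1 : ‖F z‖ ≤ ‖F (z + I * V)‖ + ‖F (z + I * V) - F z‖ := by
      have : F z = F (z + I * V) - (F (z + I * V) - F z) := by ring
      conv_lhs => rw [this]
      exact norm_sub_le _ _
    have e2 : 1 / T ^ j * ‖HH z‖ ≤ ‖az b z‖ * E2 * Q * ‖HH z‖ := by
      apply mul_le_mul_of_nonneg_right _ hHz.le
      have e3 : 1 / T ^ j ≤ Q := by
        rw [hQ]
        exact div_le_div_of_nonneg_right (one_le_pow₀ hlog) (by positivity)
      calc 1 / T ^ j ≤ Q := e3
        _ = 1 * 1 * Q := by ring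
        _ ≤ ‖az b z‖ * E2 * Q := by
          apply mul_le_mul_of_nonneg_right _ hQ0.le
          exact mul_le_mul haz hE20 zero_le_one (by linarith)
    have e3 : 2 * B = 4 * C2 * 2 ^ k * (‖az b z‖ * E2 * Q * ‖HH z‖) := by
      rw [hBd]; ring
    linarith
  -- comparison at `3 + I T`
  obtain ⟨w, hw⟩ : ∃ w : ℂ, w = 3 + I * T := ⟨_, rfl⟩
  have hwim : w.im = T := by rw [hw]; simp
  have hwre : w.re = 3 := by rw [hw]; simp
  have hw0 : w ≠ 0 := by
    intro h
    rw [h, Complex.zero_im] at hwim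
    linarith
  have hHw : 0 < ‖HH w‖ := norm_pos_iff.2 (hHH _ (by rw [hwim]; linarith)).2
  rw [← hw]
  obtain ⟨r1, r2⟩ := hri w (by rw [hwre]; norm_num) (by rw [hwre]; norm_num) (by rw [hwim]; exact hTi)
  obtain ⟨r3, -, -⟩ := hHA w (by rw [hwre]; norm_num) (by rw [hwre]; norm_num) (by rw [hwim]; exact hTh)
  rw [hwim] at r3
  have hFw : 0 < ‖F w‖ := norm_pos_iff.2 r1
  have r4 : ‖logDeriv F w‖ ≤ (1 + C7 + C8) * Real.log T := by
    have e1 : logDeriv F w = (logDeriv F w - logDeriv HH w) + (logDeriv HH w - (Om T : ℂ)) + (Om T : ℂ) := by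
      ring
    have e2 : ‖((Om T : ℝ) : ℂ)‖ ≤ Real.log T := by
      rw [Complex.norm_real, Real.norm_eq_abs]
      unfold Om
      rw [abs_of_nonneg (by linarith)]
      linarith
    rw [e1]
    refine (norm_add₃_le).trans ?_
    nlinarith
  have r5 : ‖az b w‖ * ‖Op b F w‖ ≤ (1 + C7 + C8) * Real.log T * ‖F w‖ := by
    rw [← norm_mul, ← deriv_eq b F hw0]
    have e1 : deriv F w = logDeriv F w * F w := by
      rw [logDeriv_apply]
      field_simp
    rw [e1, norm_mul]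
    exact mul_le_mul_of_nonneg_right r4 hFw.le
  have r6 : ‖az b z‖ ≤ 2 * ‖az b w‖ := by
    apply az_cmp
    have e1 : ‖z‖ ≤ 3 + T := by
      rw [hz]
      refine (norm_add_le _ _).trans ?_
      rw [norm_mul, Complex.norm_I, one_mul, Complex.norm_real, Complex.norm_real, Real.norm_eq_abs,
        Real.norm_eq_abs, abs_of_nonneg hx0, abs_of_nonneg hT0.le]
      linarith
    have e2 : T ≤ ‖w‖ := by
      have := Complex.abs_im_le_norm w
      rwa [hwim, abs_of_nonneg hT0.le] at this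
    linarith
  have r7 : Q ≤ C2 * (‖Op b F w‖ / ‖HH w‖) := by
    have g4 := (hM T hTb).1
    rw [div_le_iff₀ (by linarith), ← hQ, ← hw] at g4
    linarith
  have r8 : ‖az b z‖ * Q ≤ 2 * C2 * (1 + C7 + C8) * Real.log T * (‖F w‖ / ‖HH w‖) := by
    calc ‖az b z‖ * Q ≤ (2 * ‖az b w‖) * (C2 * (‖Op b F w‖ / ‖HH w‖)) :=
          mul_le_mul r6 r7 hQ0.le (by positivity)
      _ = 2 * C2 * ((‖az b w‖ * ‖Op b F w‖) / ‖HH w‖) := by ring
      _ ≤ 2 * C2 * (((1 + C7 + C8) * Real.log T * ‖F w‖) / ‖HH w‖) := by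
          apply mul_le_mul_of_nonneg_left _ (by positivity)
          exact div_le_div_of_nonneg_right r5 hHw.le
      _ = _ := by ring
  have hQF : 0 < ‖F w‖ / ‖HH w‖ := by positivity
  calc ‖F z‖ ≤ (4 * C2 * 2 ^ k + 1) * (‖az b z‖ * E2 * Q * ‖HH z‖) := hF1
    _ = (4 * C2 * 2 ^ k + 1) * ((‖az b z‖ * Q) * (E2 * ‖HH z‖)) := by ring
    _ ≤ (4 * C2 * 2 ^ k + 1) * ((2 * C2 * (1 + C7 + C8) * Real.log T * (‖F w‖ / ‖HH w‖)) *
        (E2 * ‖HH z‖)) := by
        apply mul_le_mul_of_nonneg_left _ (by positivity)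
        exact mul_le_mul_of_nonneg_right r8 (by positivity)
    _ = (C5 * Real.log T) * (E2 * ‖HH z‖ * (‖F w‖ / ‖HH w‖)) := by rw [hC5]; ring
    _ ≤ Real.exp (ε * Real.log T) * (E2 * ‖HH z‖ * (‖F w‖ / ‖HH w‖)) :=
        mul_le_mul_of_nonneg_right (hL6 T hTg) (by positivity)
    _ = Real.exp (3 * ε * Real.log T) * ‖HH z‖ * (‖F w‖ / ‖HH w‖) := by
        have e1 : Real.exp (3 * ε * Real.log T) = Real.exp (ε * Real.log T) * E2 := by
          rw [hE2, ← Real.exp_add]
          congr 1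
          ring
        rw [e1]
        ring

end Pool.Agent.Q65.BD.JV

namespace Pool.Agent.Q65.BD

theorem t_JV (h1 : Pool.Agent.Q260.DJ.S_HA) (h2 : Pool.Agent.Q260.DJ.S_HB) :
    Pool.Agent.Q260.DJ.S_JV := JV.t_JV h1 h2

end Pool.Agent.Q65.BD
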