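import Pool.Agent.Q260.DS.Stm5

set_option autoImplicit false

/-!
Project BD (helper260), job CU: Cauchy's estimate for upper bounds.
-/

namespace Pool.Agent.Q65.BD.CU

open Complex Filter Topology Metric Set
open Pool.Agent.Q260.DS

/-- The sizes at nearby heights. -/
lemma g_near {K A y0 : ℝ} {f : ℂ → ℂ} {l g : ℝ → ℝ} (hK : 1 ≤ K) (hS : Sys K A y0 f l g) (T y : ℝ)
    (h : |y - T| ≤ 1) : g y ≤ g T * Real.exp (3 * (K * Real.log 3) + 21 * K) := by
  have h1 := hS.lo y 3 (by norm_num)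
  have h2 := hS.up T (3 + I * ((y - T : ℝ) : ℂ))
  have e0 : (3 : ℂ) + I * (y : ℂ) = 3 + I * ((y - T : ℝ) : ℂ) + I * (T : ℂ) := by
    push_cast
    ring
  rw [e0] at h1
  have e1 : (3 + I * ((y - T : ℝ) : ℂ)).re = 3 := by simp
  have e2 : ‖(3 : ℂ)‖ = 3 := by simp
  have e3 : ‖3 + I * ((y - T : ℝ) : ℂ)‖ ^ 2 ≤ 10 := by
    rw [← Complex.normSq_eq_norm_sq, Complex.normSq_apply]
    have h3 : (3 + I * ((y - T : ℝ) : ℂ)).im = y - T := by simp
    rw [e1, h3]
    have h4 := abs_le.1 h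
    nlinarith [h4.1, h4.2]
  rw [e1, abs_of_pos (by norm_num : (0 : ℝ) < 3), max_eq_left (by norm_num)] at h2
  rw [e2, show ((3 : ℂ)).re = 3 by simp] at h1
  have h3 := hS.shift T (y - T)
  rw [show T + (y - T) = y by ring] at h3
  have h4 : K * Real.log (2 + |y - T|) ≤ K * Real.log 3 := by
    refine mul_le_mul_of_nonneg_left (Real.log_le_log (by positivity) (by linarith)) (by linarith)
  have h5 := abs_le.1 (h3.trans h4)
  have h6 : g y * Real.exp (l y * 3 - K * (1 + 3 ^ 2)) ≤ g T * Real.exp (l T * 3 + 11 * K) := by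
    refine h1.trans (h2.trans (mul_le_mul_of_nonneg_left (Real.exp_le_exp.2 ?_) (hS.pos T).le))
    nlinarith
  have h7 : g y = g y * Real.exp (l y * 3 - K * (1 + 3 ^ 2)) * Real.exp (-(l y * 3 - K * (1 + 3 ^ 2))) := by
    rw [mul_assoc, ← Real.exp_add, add_neg_cancel, Real.exp_zero, mul_one]
  rw [h7]
  refine (mul_le_mul_of_nonneg_right h6 (Real.exp_pos _).le).trans ?_
  rw [mul_assoc, ← Real.exp_add]
  refine mul_le_mul_of_nonneg_left (Real.exp_le_exp.2 ?_) (hS.pos T).le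
  linarith [h5.1]

/-- `C ≤ exp (ε L)` for large `L`. -/
lemma const_exp (C ε : ℝ) (hε : 0 < ε) : ∃ L6 : ℝ, 1 ≤ L6 ∧ ∀ L : ℝ, L6 ≤ L →
    C ≤ Real.exp (ε * L) := by
  refine ⟨max 1 (|C| / ε), le_max_left _ _, fun L hL => ?_⟩
  have hL2 := (le_max_right _ _).trans hL
  rw [div_le_iff₀ hε] at hL2
  have h1 := Real.add_one_le_exp (ε * L)
  have h2 := le_abs_self C
  nlinarith

/-- One derivative. -/
lemma step (h1 : S_GR) (h2 : S_RT) (K A e e' δ : ℝ) (k : ℕ) (hK : 1 ≤ K) (hA : 1 ≤ A) (he : 0 < e)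
    (he' : 0 < e') (hδ : 0 < δ) : ∃ C : ℝ, 1 ≤ C ∧
    ∀ (y0 : ℝ) (f : ℂ → ℂ) (l g : ℝ → ℝ), Sys K A y0 f l g → ∀ (c : ℝ) (cs : List ℝ), |c| ≤ A →
    Li A k cs → ∀ T θ : ℝ, C ≤ l T → 0 ≤ θ → (∀ y : ℝ, |y - T| ≤ δ → UB (It f cs) l g k θ y e) →
    UB (It f (c :: cs)) l g (k + 1) (θ + δ) T (e + e') := by
  obtain ⟨C1, hC1, HG⟩ := h1 K A 3 k hK hA (by norm_num)
  obtain ⟨C2, hC2, HR⟩ := h2 K A (7 / 4) 6 k hK hA (by norm_num)
  obtain ⟨κ, hκ⟩ : ∃ κ : ℝ, κ = K * Real.log 3 := ⟨_, rfl⟩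
  have hlog3 : 0 < Real.log 3 := Real.log_pos (by norm_num)
  have hκ0 : 0 < κ := by rw [hκ]; positivity
  obtain ⟨D, hD⟩ : ∃ D : ℝ, D = C2 * Real.exp (e * κ) * (Real.exp (3 * κ + 21 * K) *
    Real.exp (4 * κ + 1) * 2 ^ k) := ⟨_, rfl⟩
  have hD0 : 0 < D := by rw [hD]; positivity
  obtain ⟨L6, hL61, hL6⟩ := const_exp (D + A) e' he'
  refine ⟨C2 + 2 * κ + L6 + 1 / δ, by
    have : 0 < 1 / δ := by positivity
    linarith, ?_⟩
  intro y0 f l g hS c cs hc hcs T θ hT hθ hUB x hx hx3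
  obtain ⟨L, hL⟩ : ∃ L : ℝ, L = l T := ⟨_, rfl⟩
  rw [← hL] at hT ⊢
  have hδi : 0 < 1 / δ := by positivity
  have hL0 : 1 ≤ L := by linarith
  have hLC2 : C2 + κ ≤ L := by linarith
  have hLκ : κ ≤ L := by linarith
  have hLL6 : L6 ≤ L := by linarith
  have hLδ : 1 / L ≤ δ := by
    rw [div_le_iff₀ (by linarith)]
    have h3 : 1 / δ ≤ L := by linarith
    rw [div_le_iff₀ hδ] at h3
    linarith
  have hL1 : 1 / L ≤ 1 := by
    rw [div_le_one (by linarith)]
    exact hL0
  have hLi0 : 0 < 1 / L := by positivity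
  obtain ⟨G, hG⟩ : ∃ G : ℂ → ℂ, G = It f cs := ⟨_, rfl⟩
  have hGd : Differentiable ℂ G := by rw [hG]; exact (HG y0 f l g hS cs hcs).1
  obtain ⟨z, hz⟩ : ∃ z : ℂ, z = (x : ℂ) + I * T := ⟨_, rfl⟩
  have hzre : z.re = x := by rw [hz]; simp
  have hzim : z.im = T := by rw [hz]; simp
  have hgT := hS.pos T
  obtain ⟨Nm0, hNm0⟩ : ∃ Nm0 : ℝ, Nm0 = Nm l g k T x := ⟨_, rfl⟩
  have hN : Nm0 = g T * Real.exp (L * x) * L ^ k := by rw [hNm0]; unfold Nm; rw [← hL]
  have hN0 : 0 < Nm0 := by rw [hN]; positivity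
  -- all points of the disc
  have hdisc : ∀ w : ℂ, ‖w - z‖ ≤ 1 / L → ‖G w‖ ≤ D * (Real.exp (e * L) * Nm0) := by
    intro w hw
    have r1 : |w.re - x| ≤ 1 / L := by
      have := Complex.abs_re_le_norm (w - z)
      rw [Complex.sub_re, hzre] at this
      exact this.trans hw
    have r2 : |w.im - T| ≤ 1 / L := by
      have := Complex.abs_im_le_norm (w - z)
      rw [Complex.sub_im, hzim] at this
      exact this.trans hw
    have ew : w = (w.re : ℂ) + I * (w.im : ℂ) := by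
      rw [mul_comm I]
      exact (Complex.re_add_im w).symm
    obtain ⟨y, hy⟩ : ∃ y : ℝ, y = w.im := ⟨_, rfl⟩
    obtain ⟨u, hu⟩ : ∃ u : ℝ, u = w.re := ⟨_, rfl⟩
    rw [← hy, ← hu] at ew
    rw [← hy] at r2
    rw [← hu] at r1
    have hy1 : |y - T| ≤ 1 := r2.trans hL1
    have hsh : |l y - L| ≤ κ := by
      have h3 := hS.shift T (y - T)
      rw [show T + (y - T) = y by ring, ← hL] at h3
      refine h3.trans ?_
      rw [hκ]
      refine mul_le_mul_of_nonneg_left (Real.log_le_log (by positivity) (by linarith)) (by linarith)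
    have hsh' := abs_le.1 hsh
    have hu' := abs_le.1 r1
    have hly : C2 ≤ l y := by linarith [hsh'.1]
    have hly0 : 0 < l y := by linarith
    have hgy := hS.pos y
    have hNy0 : 0 < Nm l g k y u := by unfold Nm; positivity
    have b1 : ‖G w‖ ≤ C2 * Real.exp (e * l y) * Nm l g k y u := by
      rw [ew, hG]
      by_cases h3 : u ≤ 3
      · have h4 := hUB y (r2.trans hLδ) u (by linarith [hu'.1]) h3
        refine h4.trans ?_
        have h5 : 0 < Real.exp (e * l y) * Nm l g k y u := by positivity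
        nlinarith
      · push Not at h3
        have h4 := (HR y0 f l g hS cs hcs u y hly (by linarith) (by linarith [hu'.2])).2.2.2
        refine h4.trans ?_
        have h5 : 1 ≤ Real.exp (e * l y) := Real.one_le_exp (by positivity)
        rw [mul_assoc]
        refine mul_le_mul_of_nonneg_left ?_ (by linarith)
        nlinarith
    have b2 : Real.exp (e * l y) ≤ Real.exp (e * κ) * Real.exp (e * L) := by
      rw [← Real.exp_add]
      exact Real.exp_le_exp.2 (by nlinarith [hsh'.2])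
    have b3 : Nm l g k y u ≤ (Real.exp (3 * κ + 21 * K) * Real.exp (4 * κ + 1) * 2 ^ k) * Nm0 := by
      rw [hN]
      unfold Nm
      have c1 : g y ≤ g T * Real.exp (3 * κ + 21 * K) := by
        rw [hκ]
        exact g_near hK hS T y hy1
      have c2 : Real.exp (l y * u) ≤ Real.exp (4 * κ + 1) * Real.exp (L * x) := by
        rw [← Real.exp_add]
        refine Real.exp_le_exp.2 ?_
        have d1 : l y * u = (l y - L) * u + L * (u - x) + L * x := by ring
        have d2 : (l y - L) * u ≤ 4 * κ := by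
          have d3 : 0 ≤ u := by linarith [hu'.1]
          have d4 : u ≤ 4 := by linarith [hu'.2]
          nlinarith [hsh'.2]
        have d5 : L * (u - x) ≤ 1 := by
          have d6 : L * (1 / L) = 1 := by field_simp
          nlinarith [hu'.2]
        linarith
      have c3 : l y ^ k ≤ 2 ^ k * L ^ k := by
        rw [← mul_pow]
        exact pow_le_pow_left₀ hly0.le (by linarith [hsh'.2]) _
      calc g y * Real.exp (l y * u) * l y ^ k ≤ (g T * Real.exp (3 * κ + 21 * K)) *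
            (Real.exp (4 * κ + 1) * Real.exp (L * x)) * (2 ^ k * L ^ k) :=
            mul_le_mul (mul_le_mul c1 c2 (Real.exp_pos _).le (by positivity)) c3 (by positivity)
              (by positivity)
        _ = _ := by ring
    calc ‖G w‖ ≤ C2 * Real.exp (e * l y) * Nm l g k y u := b1
      _ ≤ C2 * (Real.exp (e * κ) * Real.exp (e * L)) *
          ((Real.exp (3 * κ + 21 * K) * Real.exp (4 * κ + 1) * 2 ^ k) * Nm0) :=
          mul_le_mul (mul_le_mul_of_nonneg_left b2 (by linarith)) b3 hNy0.le (by positivity)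
      _ = _ := by rw [hD]; ring
  have hder : ‖deriv G z‖ ≤ D * (Real.exp (e * L) * Nm0) / (1 / L) :=
    Complex.norm_deriv_le_of_forall_mem_sphere_norm_le hLi0 hGd.diffContOnCl fun w hw => by
      refine hdisc w (le_of_eq ?_)
      rw [← dist_eq_norm]
      exact mem_sphere.1 hw
  have hGz : ‖G z‖ ≤ Real.exp (e * L) * Nm0 := by
    have h3 := hUB T (by rw [sub_self, abs_zero]; exact hδ.le) x (by linarith) hx3
    rw [hG, hz, hNm0]
    rw [hL]
    exact h3
  have hX : It f (c :: cs) ((x : ℂ) + I * T) = deriv G z - (c : ℂ) * G z := by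
    rw [hG, hz]
    rfl
  rw [hX]
  have hP0 : 0 < Real.exp (e * L) * Nm0 := by positivity
  have h3 : ‖deriv G z - (c : ℂ) * G z‖ ≤ (D + A) * (Real.exp (e * L) * Nm0 * L) := by
    refine (norm_sub_le _ _).trans ?_
    have h4 : ‖(c : ℂ) * G z‖ ≤ A * (Real.exp (e * L) * Nm0 * L) := by
      rw [norm_mul, Complex.norm_real, Real.norm_eq_abs]
      refine mul_le_mul hc (hGz.trans ?_) (norm_nonneg _) (by linarith)
      nlinarith
    have h5 : D * (Real.exp (e * L) * Nm0) / (1 / L) = D * (Real.exp (e * L) * Nm0 * L) := by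
      field_simp
    rw [h5] at hder
    linarith
  refine h3.trans ?_
  have h4 : Nm l g (k + 1) T x = Nm0 * L := by
    rw [hN]
    unfold Nm
    rw [← hL, pow_succ]
    ring
  rw [h4, show (e + e') * L = e * L + e' * L by ring, Real.exp_add]
  have h5 := hL6 L hLL6
  calc (D + A) * (Real.exp (e * L) * Nm0 * L) ≤ Real.exp (e' * L) * (Real.exp (e * L) * Nm0 * L) :=
        mul_le_mul_of_nonneg_right h5 (by positivity)
    _ = _ := by ring

lemma many (h1 : S_GR) (h2 : S_RT) (K A : ℝ) (hK : 1 ≤ K) (hA : 1 ≤ A) (k : ℕ) :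
    ∀ e e' δ : ℝ, 0 < e → 0 < e' → 0 < δ → δ ≤ 1 → ∃ C : ℝ, 1 ≤ C ∧
    ∀ (y0 : ℝ) (f : ℂ → ℂ) (l g : ℝ → ℝ), Sys K A y0 f l g → ∀ cs : List ℝ, Li A k cs →
    ∀ T θ : ℝ, C ≤ l T → 0 ≤ θ → (∀ y : ℝ, |y - T| ≤ δ → UB f l g 0 θ y e) →
    UB (It f cs) l g k (θ + δ) T (e + e') := by
  induction k with
  | zero =>
    intro e e' δ he he' hδ hδ1
    refine ⟨1, le_refl _, ?_⟩
    intro y0 f l g hS cs hcs T θ hT hθ hUB x hx hx3
    have h3 : cs = [] := List.length_eq_zero_iff.1 hcs.1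
    rw [h3]
    have h4 := hUB T (by rw [sub_self, abs_zero]; exact hδ.le) x (by linarith) hx3
    refine h4.trans ?_
    have h5 : 0 < Nm l g 0 T x := by
      unfold Nm
      have := hS.pos T
      positivity
    refine mul_le_mul_of_nonneg_right (Real.exp_le_exp.2 ?_) h5.le
    nlinarith
  | succ k ih =>
    intro e e' δ he he' hδ hδ1
    obtain ⟨C1, hC1, H1⟩ := ih e (e' / 2) (δ / 2) he (by positivity) (by positivity) (by linarith)
    obtain ⟨C2, hC2, H2⟩ := step h1 h2 K A (e + e' / 2) (e' / 2) (δ / 2) k hK hA (by positivity)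
      (by positivity) (by positivity)
    have hlog3 : 0 < Real.log 3 := Real.log_pos (by norm_num)
    have hκ0 : 0 < K * Real.log 3 := by positivity
    refine ⟨C1 + C2 + K * Real.log 3, by linarith, ?_⟩
    intro y0 f l g hS cs hcs T θ hT hθ hUB
    obtain ⟨hlen, hbd⟩ := hcs
    cases cs with
    | nil => simp at hlen
    | cons c cs =>
      have hc : |c| ≤ A := hbd c (List.mem_cons_self)
      have hcs' : Li A k cs := by
        refine ⟨?_, fun a ha => hbd a (List.mem_cons_of_mem _ ha)⟩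
        rw [List.length_cons] at hlen
        omega
      have h3 := H2 y0 f l g hS c cs hc hcs' T (θ + δ / 2) (by linarith) (by linarith) ?_
      · have e1 : θ + δ / 2 + δ / 2 = θ + δ := by ring
        have e2 : e + e' / 2 + e' / 2 = e + e' := by ring
        rwa [e1, e2] at h3
      · intro y hy
        have hsh := hS.shift T (y - T)
        rw [show T + (y - T) = y by ring] at hsh
        have h4 : K * Real.log (2 + |y - T|) ≤ K * Real.log 3 :=
          mul_le_mul_of_nonneg_left (Real.log_le_log (by positivity) (by linarith)) (by linarith)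
        have h5 := abs_le.1 (hsh.trans h4)
        refine H1 y0 f l g hS cs hcs' y θ (by linarith [h5.1]) hθ fun y' hy' => hUB y' ?_
        have h6 : |y' - T| ≤ |y' - y| + |y - T| := abs_sub_le y' y T
        linarith

theorem t_CU (h1 : S_GR) (h2 : S_RT) : S_CU := by
  intro K A ε δ k hK hA hε hδ hδ2
  obtain ⟨C, hC, H⟩ := many h1 h2 K A hK hA k ε ε δ hε hε hδ (by linarith)
  refine ⟨C, hC, fun y0 f l g hS cs hcs T θ hT hθ _ hUB => ?_⟩
  have h3 := H y0 f l g hS cs hcs T θ hT hθ hUB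
  rwa [← two_mul] at h3

end Pool.Agent.Q65.BD.CU

namespace Pool.Agent.Q65.BD

theorem t_CU (h1 : Pool.Agent.Q260.DS.S_GR) (h2 : Pool.Agent.Q260.DS.S_RT) :
    Pool.Agent.Q260.DS.S_CU := CU.t_CU h1 h2

end Pool.Agent.Q65.BD
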