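import Pool.Agent.Q65.BD.JF
import Pool.Agent.Q144.DJ.TC
import Pool.Agent.Q176.DJ.C0

set_option autoImplicit false
set_option linter.all false

/-!
Project BD (helper260), job JZ: Backlund's theorem for zeta on every line, local form.
-/

namespace Pool.Agent.Q65.BD.JZ

open Complex Filter Topology Metric Set
open Pool.Agent.H24R2.JP (HH XX Om)
open Pool.Agent.Q260.DJ
open Pool.Agent.Q260.DS (Few)
open Pool.Agent.Q176.DJ (xx_ratio)

/-- `C ≤ T ^ ε` for large `T`. -/
theorem const_le (C ε : ℝ) (hε : 0 < ε) : ∃ T6 : ℝ, 3 ≤ T6 ∧ ∀ T : ℝ, T6 ≤ T → C ≤ T ^ ε := by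
  obtain ⟨T6, h3, h⟩ := JC.const_exp C ε hε
  refine ⟨T6, h3, fun T hT => ?_⟩
  rw [Real.rpow_def_of_pos (by linarith), mul_comm]
  exact h T hT

/-- Polynomial bound for zeta. -/
theorem zeta_poly : ∃ A T1 : ℝ, 0 < A ∧ 3 ≤ T1 ∧ ∀ s : ℂ, 0 ≤ s.re → s.re ≤ 5 → T1 ≤ s.im →
    ‖riemannZeta s‖ ≤ s.im ^ A := by
  obtain ⟨A, T1, hA, hT1, hg⟩ := c0.grow (-(1 / 2)) 5 (by norm_num) (by norm_num)
  refine ⟨A, T1, hA, hT1, fun s h0 h5 hT => ?_⟩
  have hre : (s - 1 / 2).re = s.re - 1 / 2 := by simp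
  have him : (s - 1 / 2).im = s.im := by simp
  have h1 := hg (s - 1 / 2) (by rw [hre]; linarith) (by rw [hre]; linarith) (by rw [him]; exact hT)
  have hH : 0 < ‖HH (s - 1 / 2)‖ := norm_pos_iff.2 (ha.1 _ (by rw [him]; linarith)).2
  rw [xx_ratio (by rw [him]; linarith), him, mul_comm (Real.exp _)] at h1
  have h2 := le_of_mul_le_mul_left h1 hH
  rw [show (1 / 2 : ℂ) + (s - 1 / 2) = s by ring] at h2
  rw [Real.rpow_def_of_pos (by linarith), mul_comm]
  exact h2

/-- The orders of the zeros. -/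
theorem order_eq {s : ℂ} (hs : 0 < s.im) :
    analyticOrderNatAt XX (s - 1 / 2) = analyticOrderNatAt riemannZeta s := by
  have him : (s - 1 / 2).im = s.im := by simp
  obtain ⟨h1, h2⟩ := ha.1 (s - 1 / 2) (by rw [him]; exact hs)
  have e0 : (s - 1 / 2) + 1 / 2 = s := by ring
  have hz : AnalyticAt ℂ riemannZeta s := DH31.zeta_analyticAt hs
  have hz' : AnalyticAt ℂ riemannZeta ((s - 1 / 2) + 1 / 2) := by rw [e0]; exact hz
  have h3 : AnalyticAt ℂ (fun w => riemannZeta (w + 1 / 2)) (s - 1 / 2) := by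
    refine AnalyticAt.comp' hz' ?_
    exact analyticAt_id.add analyticAt_const
  have h4 : XX =ᶠ[𝓝 (s - 1 / 2)] fun w => HH w * riemannZeta (w + 1 / 2) := by
    have hop : {w : ℂ | 0 < w.im} ∈ 𝓝 (s - 1 / 2) :=
      (isOpen_lt continuous_const Complex.continuous_im).mem_nhds (by
        show 0 < (s - 1 / 2).im
        rw [him]
        exact hs)
    filter_upwards [hop] with w hw
    rw [Pool.Agent.H24R2.JP.zetaS.1 w hw, add_comm w]
  have h5 : analyticOrderNatAt XX (s - 1 / 2) =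
      analyticOrderNatAt (fun w => HH w * riemannZeta (w + 1 / 2)) (s - 1 / 2) := by
    unfold analyticOrderNatAt
    rw [analyticOrderAt_congr h4]
  rw [h5, JF.order_unit h3 h1 h2]
  have h7 : AnalyticAt ℂ (fun w : ℂ => w + 1 / 2) (s - 1 / 2) := analyticAt_id.add analyticAt_const
  have h8 : deriv (fun w : ℂ => w + 1 / 2) (s - 1 / 2) ≠ 0 := by
    rw [deriv_add_const, deriv_id'']
    exact one_ne_zero
  have h9 := analyticOrderAt_comp_of_deriv_ne_zero (f := riemannZeta) h7 h8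
  have h10 : riemannZeta ∘ (fun w : ℂ => w + 1 / 2) = fun w => riemannZeta (w + 1 / 2) := rfl
  rw [h10, e0] at h9
  unfold analyticOrderNatAt
  rw [h9]

/-- First part. -/
theorem part1 {σ : ℝ} (hσ : 1 / 2 ≤ σ) (hσ1 : σ < 1) (ε : ℝ) (hε : 0 < ε) :
    ∃ δ h T0 : ℝ, 0 < δ ∧ 0 < h ∧ 3 ≤ T0 ∧ ∀ T : ℝ, T0 ≤ T →
    (∀ y : ℝ, |y - T| ≤ h → Few XX (σ - 1 / 2 + δ) y 1 (δ * Real.log T)) →
    ‖riemannZeta (σ + T * I)‖ ≤ T ^ ε := by
  obtain ⟨A, T1, hA, hT1, hpoly⟩ := zeta_poly
  obtain ⟨d, hd⟩ : ∃ d : ℝ, d = 1 - σ := ⟨_, rfl⟩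
  have hd0 : 0 < d := by linarith
  have hd2 : d ≤ 1 / 2 := by linarith
  obtain ⟨δ, hδ⟩ : ∃ δ : ℝ, δ = min (1 / 12) (min (d / 4) (ε * d / (64 * A))) := ⟨_, rfl⟩
  have hδ0 : 0 < δ := by rw [hδ]; exact lt_min (by norm_num) (lt_min (by positivity) (by positivity))
  have hδ1 : δ ≤ 1 / 12 := by rw [hδ]; exact min_le_left _ _
  have hδ2 : δ ≤ d / 4 := by rw [hδ]; exact (min_le_right _ _).trans (min_le_left _ _)
  have hδ3 : δ ≤ ε * d / (64 * A) := by rw [hδ]; exact (min_le_right _ _).trans (min_le_right _ _)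
  obtain ⟨η, hη, T2, hback⟩ := DH31.backlund_zeta hδ0 hδ1 (show 0 < ε / 2 by positivity)
  refine ⟨min δ η, 1, T1 + |T2| + 5, lt_min hδ0 hη, one_pos, by linarith [abs_nonneg T2], ?_⟩
  intro T hT hfew
  have habs := abs_nonneg T2
  have hT2 : T2 ≤ T := by linarith [le_abs_self T2]
  have hT0 : 0 < T := by linarith
  have hT3 : 3 ≤ T := by linarith
  have hlog : 0 < Real.log T := Real.log_pos (by linarith)
  obtain ⟨c, hc⟩ : ∃ c : ℂ, c = ⟨1 + δ, T⟩ := ⟨_, rfl⟩
  have hb := hback T hT2 T hT3 le_rfl (σ + 3 * δ) (by linarith) (by linarith) ?_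
  · rw [← hc] at hb
    obtain ⟨z, hz⟩ : ∃ z : ℂ, z = (σ : ℂ) + T * I := ⟨_, rfl⟩
    rw [← hz]
    have hr1 : 1 + δ - (σ + 3 * δ) + δ = d - δ := by rw [hd]; ring
    rw [hr1] at hb
    have hzc : z - c = (((-(d + δ) : ℝ)) : ℂ) := by
      rw [hz, hc, hd]
      apply Complex.ext <;> simp
      ring
    have hzn : ‖z - c‖ = d + δ := by
      rw [hzc, Complex.norm_real, Real.norm_eq_abs, abs_neg, abs_of_pos (by linarith)]
    have h3c := Pool.Agent.Q144.DJ.three_circles' (F := riemannZeta) (c := c) (r₁ := d - δ)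
      (r₃ := d + δ + 1 / 4) (M₁ := T ^ (ε / 2)) (M₃ := T ^ (2 * A)) (by linarith) (by linarith)
      (fun w hw => by
        rw [mem_closedBall, dist_eq_norm] at hw
        have h2 := (abs_im_le_norm (w - c)).trans hw
        rw [sub_im, hc] at h2
        have h2' := (abs_le.1 h2).1
        simp only at h2'
        exact (DH31.zeta_analyticAt (by linarith)).differentiableAt)
      (fun w hw => hb w (sphere_subset_closedBall hw))
      (fun w hw => by
        rw [mem_sphere, dist_eq_norm] at hw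
        have h1 := abs_le.1 ((abs_re_le_norm (w - c)).trans hw.le)
        have h2 := abs_le.1 ((abs_im_le_norm (w - c)).trans hw.le)
        rw [sub_re, hc] at h1
        rw [sub_im, hc] at h2
        simp only at h1 h2
        refine (hpoly w (by linarith [h1.1]) (by linarith [h1.2]) (by linarith [h2.1])).trans ?_
        rw [show (2 : ℝ) * A = (2 : ℕ) * A by norm_num, Real.rpow_mul hT0.le, Real.rpow_natCast]
        refine Real.rpow_le_rpow (by linarith [h2.1]) ?_ hA.le
        nlinarith [h2.2])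
      (z := z) (by rw [hzn]; linarith) (by rw [hzn]; linarith)
    rw [hzn] at h3c
    obtain ⟨κ, hκ⟩ : ∃ κ : ℝ, κ = (Real.log (d + δ) - Real.log (d - δ)) /
      (Real.log (d + δ + 1 / 4) - Real.log (d - δ)) := ⟨_, rfl⟩
    rw [← hκ] at h3c
    have k1 : Real.log (d + δ) - Real.log (d - δ) ≤ 4 * δ / d := by
      rw [← Real.log_div (by linarith) (by linarith)]
      refine (Real.log_le_sub_one_of_pos (div_pos (by linarith) (by linarith))).trans ?_
      rw [div_sub_one (by linarith), div_le_div_iff₀ (by linarith) hd0]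
      nlinarith
    have k2 : 1 / 4 ≤ Real.log (d + δ + 1 / 4) - Real.log (d - δ) := by
      have e1 : Real.log (d - δ) ≤ Real.log (d + δ) := Real.log_le_log (by linarith) (by linarith)
      have e2 := Real.one_sub_inv_le_log_of_pos (x := (d + δ + 1 / 4) / (d + δ))
        (div_pos (by linarith) (by linarith))
      rw [Real.log_div (by linarith) (by linarith), inv_div] at e2
      have e3 : 1 / 4 ≤ 1 - (d + δ) / (d + δ + 1 / 4) := by
        rw [le_sub_comm, div_le_iff₀ (by linarith)]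
        nlinarith
      linarith
    have k3 : 0 ≤ Real.log (d + δ) - Real.log (d - δ) := by
      have := Real.log_le_log (show 0 < d - δ by linarith) (show d - δ ≤ d + δ by linarith)
      linarith
    have k0 : 0 ≤ κ := by rw [hκ]; exact div_nonneg k3 (by linarith)
    have k4 : κ ≤ 16 * δ / d := by
      rw [hκ, div_le_iff₀ (by linarith)]
      have : 0 ≤ 16 * δ / d := by positivity
      calc Real.log (d + δ) - Real.log (d - δ) ≤ 4 * δ / d := k1
        _ = 16 * δ / d * (1 / 4) := by ring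
        _ ≤ _ := mul_le_mul_of_nonneg_left k2 this
    have k5 : 2 * A * κ ≤ ε / 2 := by
      have : 16 * δ / d ≤ ε / (4 * A) := by
        rw [div_le_div_iff₀ hd0 (by positivity)]
        rw [le_div_iff₀ (by positivity)] at hδ3
        nlinarith
      calc 2 * A * κ ≤ 2 * A * (ε / (4 * A)) :=
            mul_le_mul_of_nonneg_left (k4.trans this) (by positivity)
        _ = ε / 2 := by field_simp; ring
    refine h3c.trans ?_
    rw [← Real.rpow_mul hT0.le, ← Real.rpow_mul hT0.le, ← Real.rpow_add hT0]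
    refine Real.rpow_le_rpow_of_exponent_le (by linarith) ?_
    nlinarith
  · intro S hS
    have hf := hfew T (by rw [sub_self, abs_zero]; exact zero_le_one)
    classical
    have h1 := hf (S.image fun s => s - 1 / 2) (by
      intro z hz
      rw [Finset.mem_image] at hz
      obtain ⟨s, hs, rfl⟩ := hz
      obtain ⟨hs1, hs2⟩ := hS s hs
      rw [mem_closedBall, dist_eq_norm] at hs1
      have h1 := abs_le.1 ((abs_re_le_norm _).trans hs1)
      have h2 := abs_le.1 ((abs_im_le_norm _).trans hs1)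
      rw [sub_re] at h1
      rw [sub_im] at h2
      simp only at h1 h2
      have him : (s - 1 / 2).im = s.im := by simp
      have hre : (s - 1 / 2).re = s.re - 1 / 2 := by simp
      have hsim : 0 < s.im := by linarith [h2.1]
      rw [him, hre]
      refine ⟨?_, ?_, ?_, ?_⟩
      · have h3 := Pool.Agent.H24R2.JP.zetaS.1 (s - 1 / 2) (by rw [him]; exact hsim)
        rw [h3, show (1 / 2 : ℂ) + (s - 1 / 2) = s by ring, hs2, mul_zero]
      · have := min_le_left δ η
        linarith [h1.1]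
      · linarith [h1.2]
      · rw [abs_le]
        constructor <;> linarith [h2.1, h2.2])
    rw [Finset.sum_image (fun a _ b _ hab => sub_left_injective hab)] at h1
    have h2 : ∀ s ∈ S, (analyticOrderNatAt XX (s - 1 / 2) : ℝ) = (H370.mult riemannZeta s : ℝ) := by
      intro s hs
      obtain ⟨hs1, hs2⟩ := hS s hs
      rw [mem_closedBall, dist_eq_norm] at hs1
      have h2 := abs_le.1 ((abs_im_le_norm _).trans hs1)
      rw [sub_im] at h2
      simp only at h2
      rw [order_eq (by linarith [h2.1])]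
      rfl
    rw [Finset.sum_congr rfl h2] at h1
    exact h1.trans (mul_le_mul_of_nonneg_right (min_le_right _ _) hlog.le)

/-- The maximum principle in a rectangle: from the line `Re s = σ` to the right. -/
theorem rect (σ e : ℝ) (hσ : 1 / 2 ≤ σ) (hσ1 : σ < 1) (he : 0 < e) : ∃ ε H C T0 : ℝ, 0 < ε ∧ 0 < H ∧
    1 ≤ C ∧ 3 ≤ T0 ∧ ∀ T : ℝ, T0 ≤ T → ∀ y : ℝ, |y - T| ≤ 5 →
    (∀ t : ℝ, |t - y| ≤ H → ‖riemannZeta (σ + t * I)‖ ≤ T ^ ε) →
    ∀ x : ℝ, 0 ≤ x → x ≤ 3 → ‖riemannZeta ((σ + x : ℝ) + y * I)‖ ≤ C * T ^ (e / 4) := by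
  obtain ⟨A, T1, hA, hT1, hpoly⟩ := zeta_poly
  obtain ⟨A1, hA1, hzb⟩ := DH31.zeta_bounds (a := 2) (by norm_num)
  obtain ⟨b, hb⟩ : ∃ b : ℝ, b = e / 100 := ⟨_, rfl⟩
  have hb0 : 0 < b := by rw [hb]; positivity
  obtain ⟨H, hH⟩ : ∃ H : ℝ, H = 5 + 2 * A / b := ⟨_, rfl⟩
  have hAb : 0 < 2 * A / b := by positivity
  have hH4 : 5 < H := by linarith
  have hHb : b * (25 - H ^ 2) + 2 * A ≤ 0 := by
    have e1 : b * (2 * A / b) = 2 * A := by field_simp
    rw [hH]
    nlinarith [mul_pos hb0 hAb]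
  refine ⟨b, H, A1, T1 + H + 10, hb0, by linarith, hA1, by linarith, ?_⟩
  intro T hT y hy hline x hx0 hx3
  have hy' := abs_le.1 hy
  have hT0 : 0 < T := by linarith
  have hTH : T1 + H + 10 ≤ T := hT
  have hT1' : 1 ≤ T := by linarith
  have hlog : 0 ≤ Real.log T := Real.log_nonneg hT1'
  obtain ⟨B, hB⟩ : ∃ B : ℝ, B = b * Real.log T := ⟨_, rfl⟩
  have hB0 : 0 ≤ B := by rw [hB]; positivity
  obtain ⟨s0, hs0⟩ : ∃ s0 : ℂ, s0 = ((σ + x : ℝ) : ℂ) + y * I := ⟨_, rfl⟩
  have hs0re : s0.re = σ + x := by rw [hs0]; simp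
  have hs0im : s0.im = y := by rw [hs0]; simp
  rw [← hs0]
  obtain ⟨F, hF⟩ : ∃ F : ℂ → ℂ, F = fun s => riemannZeta s * cexp (B * (s - s0) ^ 2) := ⟨_, rfl⟩
  have hFn : ∀ s : ℂ, ‖F s‖ = ‖riemannZeta s‖ *
      Real.exp (B * ((s.re - (σ + x)) ^ 2 - (s.im - y) ^ 2)) := by
    intro s
    rw [hF]
    simp only [norm_mul, Complex.norm_exp]
    congr 2
    rw [Complex.re_ofReal_mul, sq, Complex.mul_re, Complex.sub_re, Complex.sub_im, hs0re, hs0im]
    ring
  have hTexp : ∀ r : ℝ, T ^ r = Real.exp (r * Real.log T) := by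
    intro r
    rw [Real.rpow_def_of_pos hT0, mul_comm]
  obtain ⟨M, hM⟩ : ∃ M : ℝ, M = A1 * T ^ (e / 4) := ⟨_, rfl⟩
  have hM1 : 1 ≤ T ^ (e / 4) := Real.one_le_rpow hT1' (by positivity)
  have hMM : T ^ (e / 4) ≤ M := by
    rw [hM]
    exact le_mul_of_one_le_left (by positivity) hA1
  obtain ⟨U, hU⟩ : ∃ U : Set ℂ, U = Ioo σ 5 ×ℂ Ioo (y - H) (y + H) := ⟨_, rfl⟩
  have hUb : Bornology.IsBounded U := by
    rw [hU]
    exact (Metric.isBounded_Ioo _ _).reProdIm (Metric.isBounded_Ioo _ _)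
  have hcl : closure U = Icc σ 5 ×ℂ Icc (y - H) (y + H) := by
    rw [hU, Complex.closure_reProdIm, closure_Ioo (by linarith), closure_Ioo (by linarith)]
  have hdiff : DiffContOnCl ℂ F U := by
    apply DifferentiableOn.diffContOnCl
    intro s hs
    rw [hcl, Complex.mem_reProdIm] at hs
    have h1 : DifferentiableAt ℂ riemannZeta s :=
      (DH31.zeta_analyticAt (by linarith [hs.2.1])).differentiableAt
    rw [hF]
    refine (h1.mul ?_).differentiableWithinAt
    fun_prop
  have hside : ∀ s ∈ frontier U, ‖F s‖ ≤ M := by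
    intro s hs
    rw [hU, Complex.frontier_reProdIm, closure_Ioo (by linarith), closure_Ioo (by linarith),
      frontier_Ioo (by linarith), frontier_Ioo (by linarith)] at hs
    rw [hFn]
    rcases hs with hs | hs
    · -- top and bottom
      rw [Complex.mem_reProdIm] at hs
      obtain ⟨⟨h1, h2⟩, h3⟩ := hs
      have h4 : (s.im - y) ^ 2 = H ^ 2 := by
        rcases h3 with h3 | h3
        · rw [h3]; ring
        · rw [mem_singleton_iff] at h3
          rw [h3]; ring
      have h5 : y - H ≤ s.im ∧ s.im ≤ y + H := by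
        rcases h3 with h3 | h3
        · rw [h3]; constructor <;> linarith
        · rw [mem_singleton_iff] at h3
          rw [h3]; constructor <;> linarith
      have h6 : (s.re - (σ + x)) ^ 2 ≤ 25 := by
        nlinarith
      have h7 := hpoly s (by linarith) h2 (by linarith [h5.1])
      have h8 : s.im ^ A ≤ T ^ (2 * A) := by
        rw [show (2 : ℝ) * A = (2 : ℕ) * A by norm_num, Real.rpow_mul hT0.le, Real.rpow_natCast]
        refine Real.rpow_le_rpow (by linarith [h5.1]) ?_ hA.le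
        nlinarith [h5.2]
      have h9 : B * ((s.re - (σ + x)) ^ 2 - (s.im - y) ^ 2) ≤ -(2 * A) * Real.log T := by
        rw [h4, hB]
        have h10 : b * Real.log T * ((s.re - (σ + x)) ^ 2 - H ^ 2) ≤ b * Real.log T * (25 - H ^ 2) :=
          mul_le_mul_of_nonneg_left (by linarith) (by positivity)
        have h11 : b * Real.log T * (25 - H ^ 2) = (b * (25 - H ^ 2)) * Real.log T := by ring
        have h12 : (b * (25 - H ^ 2)) * Real.log T ≤ -(2 * A) * Real.log T :=
          mul_le_mul_of_nonneg_right (by linarith) hlog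
        linarith
      calc ‖riemannZeta s‖ * Real.exp (B * ((s.re - (σ + x)) ^ 2 - (s.im - y) ^ 2)) ≤
            T ^ (2 * A) * Real.exp (-(2 * A) * Real.log T) :=
            mul_le_mul (h7.trans h8) (Real.exp_le_exp.2 h9) (Real.exp_pos _).le (by positivity)
        _ = 1 := by
            rw [hTexp, ← Real.exp_add, ← add_mul, add_neg_cancel, zero_mul, Real.exp_zero]
        _ ≤ T ^ (e / 4) := hM1
        _ ≤ M := hMM
    · rw [Complex.mem_reProdIm] at hs
      obtain ⟨h3, h1, h2⟩ := hs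
      have h4 : 0 ≤ (s.im - y) ^ 2 := sq_nonneg _
      rcases h3 with h3 | h3
      · have h5 := hline s.im (by rw [abs_le]; constructor <;> linarith)
        have h6 : (σ : ℂ) + s.im * I = s := by
          rw [← h3]
          exact Complex.re_add_im s
        rw [h6] at h5
        have h7 : B * ((s.re - (σ + x)) ^ 2 - (s.im - y) ^ 2) ≤ 9 * b * Real.log T := by
          rw [h3, hB]
          have : (σ - (σ + x)) ^ 2 ≤ 9 := by nlinarith
          have h8 : b * Real.log T * ((σ - (σ + x)) ^ 2 - (s.im - y) ^ 2) ≤ b * Real.log T * 9 :=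
            mul_le_mul_of_nonneg_left (by linarith) (by positivity)
          linarith
        calc ‖riemannZeta s‖ * Real.exp (B * ((s.re - (σ + x)) ^ 2 - (s.im - y) ^ 2)) ≤
              T ^ b * Real.exp (9 * b * Real.log T) :=
              mul_le_mul h5 (Real.exp_le_exp.2 h7) (Real.exp_pos _).le (by positivity)
          _ = T ^ (10 * b) := by
              rw [hTexp, hTexp, ← Real.exp_add]
              congr 1
              ring
          _ ≤ T ^ (e / 4) := Real.rpow_le_rpow_of_exponent_le hT1' (by rw [hb]; linarith)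
          _ ≤ M := hMM
      · rw [mem_singleton_iff] at h3
        have h5 := (hzb s (by rw [h3]; norm_num)).1
        have h7 : B * ((s.re - (σ + x)) ^ 2 - (s.im - y) ^ 2) ≤ e / 4 * Real.log T := by
          rw [h3, hB]
          have h9 : (5 - (σ + x)) ^ 2 ≤ 25 := by nlinarith
          have h10 : b * Real.log T * ((5 - (σ + x)) ^ 2 - (s.im - y) ^ 2) ≤ b * Real.log T * 25 :=
            mul_le_mul_of_nonneg_left (by linarith) (by positivity)
          have h11 : b * Real.log T * 25 = e / 4 * Real.log T := by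
            rw [hb]
            ring
          linarith
        calc ‖riemannZeta s‖ * Real.exp (B * ((s.re - (σ + x)) ^ 2 - (s.im - y) ^ 2)) ≤
              A1 * Real.exp (e / 4 * Real.log T) :=
              mul_le_mul h5 (Real.exp_le_exp.2 h7) (Real.exp_pos _).le (by linarith)
          _ = M := by rw [hM, hTexp]
  have hfin := Complex.norm_le_of_forall_mem_frontier_norm_le hUb hdiff hside (z := s0) (by
    rw [hcl, Complex.mem_reProdIm, hs0re, hs0im]
    refine ⟨⟨by linarith, by linarith⟩, ⟨by linarith, by linarith⟩⟩)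
  rw [hFn, hs0re, hs0im, sub_self, sub_self] at hfin
  rw [hM] at hfin
  simpa using hfin

/-- Second part. -/
theorem part2 {σ : ℝ} (hσ : 1 / 2 ≤ σ) (hσ1 : σ < 1) (δ : ℝ) (hδ : 0 < δ) :
    ∃ ε h T0 : ℝ, 0 < ε ∧ 0 < h ∧ 3 ≤ T0 ∧ ∀ T : ℝ, T0 ≤ T →
    (∀ t : ℝ, |t - T| ≤ h → ‖riemannZeta (σ + t * I)‖ ≤ T ^ ε) →
    Few XX (σ - 1 / 2 + δ) T 1 (δ * Real.log T) := by
  obtain ⟨e, T1, he, hT1, hJF⟩ := JF.t_JF ha XX c0 (min δ (1 / 2)) δ 1
    (lt_min hδ (by norm_num)) (min_le_right _ _) hδ zero_le_one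
  obtain ⟨ε, H, C, T2, hε, hH, hC, hT2, hrect⟩ := rect σ e hσ hσ1 he
  obtain ⟨A1, hA1, hzb⟩ := DH31.zeta_bounds (a := 2) (by norm_num)
  obtain ⟨T3, hT3, hcon⟩ := const_le (C * A1) (e / 4) (by positivity)
  refine ⟨ε, H + 5, T1 + T2 + T3 + 20, hε, by linarith, by linarith, ?_⟩
  intro T hT hline
  have hT0 : 0 < T := by linarith
  have hT1' : 1 ≤ T := by linarith
  have hfew := hJF T (σ - 1 / 2) (by linarith) (by linarith) (by linarith) (by
    intro y hy x hx hx3
    rw [show (1 : ℝ) + 4 = 5 by norm_num] at hy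
    have hy' := abs_le.1 hy
    have h1 := hrect T (by linarith) y hy (fun t ht => hline t (by
      have : |t - T| ≤ |t - y| + |y - T| := abs_sub_le t y T
      linarith)) (x - (σ - 1 / 2)) (by linarith) (by linarith)
    have e1 : σ + (x - (σ - 1 / 2)) = 1 / 2 + x := by ring
    rw [e1] at h1
    have hxy : ((x : ℂ) + I * y).im = y := by simp
    have h3y : ((3 : ℂ) + I * y).im = y := by simp
    have hy0 : 0 < y := by linarith
    have hH1 : 0 < ‖HH ((3 : ℂ) + I * y)‖ := norm_pos_iff.2 (ha.1 _ (by rw [h3y]; exact hy0)).2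
    rw [xx_ratio (z := (x : ℂ) + I * y) (by rw [hxy]; exact hy0),
      xx_ratio (z := (3 : ℂ) + I * y) (by rw [h3y]; exact hy0)]
    have e2 : (1 / 2 : ℂ) + ((x : ℂ) + I * y) = ((1 / 2 + x : ℝ) : ℂ) + y * I := by
      push_cast
      ring
    rw [e2, mul_div_cancel_left₀ _ hH1.ne']
    have h2 := (hzb (1 / 2 + ((3 : ℂ) + I * y)) (by
      rw [Complex.add_re, Complex.add_re]
      simp
      norm_num)).2
    have hlow : 0 < 1 / A1 := by positivity
    have h3 : C * T ^ (e / 4) ≤ Real.exp (e * Real.log y) * (1 / A1) := by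
      have h4 := hcon T (by linarith)
      have h5 : T ^ (e / 4) * T ^ (e / 4) ≤ Real.exp (e * Real.log y) := by
        rw [← Real.rpow_add hT0, Real.rpow_def_of_pos hT0]
        refine Real.exp_le_exp.2 ?_
        have h6 : Real.log T ≤ 2 * Real.log y := by
          rw [← Real.log_rpow hy0]
          apply Real.log_le_log hT0
          rw [Real.rpow_two]
          nlinarith
        nlinarith
      rw [mul_one_div, le_div_iff₀ (by linarith)]
      have h7 : 0 ≤ T ^ (e / 4) := by positivity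
      calc C * T ^ (e / 4) * A1 = (C * A1) * T ^ (e / 4) := by ring
        _ ≤ T ^ (e / 4) * T ^ (e / 4) := mul_le_mul_of_nonneg_right h4 h7
        _ ≤ _ := h5
    calc ‖HH ((x : ℂ) + I * y)‖ * ‖riemannZeta (((1 / 2 + x : ℝ) : ℂ) + y * I)‖ ≤
          ‖HH ((x : ℂ) + I * y)‖ * (Real.exp (e * Real.log y) * (1 / A1)) :=
          mul_le_mul_of_nonneg_left (h1.trans h3) (norm_nonneg _)
      _ ≤ ‖HH ((x : ℂ) + I * y)‖ * (Real.exp (e * Real.log y) *
          ‖riemannZeta (1 / 2 + ((3 : ℂ) + I * y))‖) :=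
          mul_le_mul_of_nonneg_left (mul_le_mul_of_nonneg_left h2 (Real.exp_pos _).le) (norm_nonneg _)
      _ = _ := by ring)
  intro Z hZ
  refine hfew Z fun z hz => ?_
  obtain ⟨h1, h2, h3, h4⟩ := hZ z hz
  exact ⟨h1, by linarith [min_le_left δ (1 / 2 : ℝ)], h3, h4⟩

end Pool.Agent.Q65.BD.JZ

namespace Pool.Agent.Q65.BD

open Pool.Agent.Q260.DJ in
theorem t_JZ : S_JZ := fun _ h1 h2 => ⟨JZ.part1 h1 h2, JZ.part2 h1 h2⟩

end Pool.Agent.Q65.BD
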